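import Pool.Agent.V8H44.RC.Lin

/-!
The vectors of the exponents of the words `w₁^e₁ ⋯ w_k^e_k` in the image of a unary language
under a transducer.
-/

set_option autoImplicit false

namespace Pool.Agent.V8H44.RC

open Set Pool.Agent.R679.Tr

/-- the word `w₁^e₁ ⋯ w_k^e_k` -/
def word {β : Type} {k : ℕ} (w : Fin k → List β) (e : Fin k → ℕ) : List β :=
  (List.ofFn fun i => (List.replicate (e i) (w i)).flatten).flatten

theorem word_succ {β : Type} {k : ℕ} (w : Fin (k + 1) → List β) (e : Fin (k + 1) → ℕ) :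
    word w e = (List.replicate (e 0) (w 0)).flatten ++
      word (fun i => w i.succ) (fun i => e i.succ) := by
  unfold word
  rw [List.ofFn_succ, List.flatten_cons]

theorem word_zero {β : Type} (w : Fin 0 → List β) (e : Fin 0 → ℕ) : word w e = [] := by
  unfold word
  simp

/-- the family of tuples of linear sets represents the set of pairs -/
def Rep {k : ℕ} (C : Set (Fin k → Lin)) (s : ℕ) (e : Fin k → ℕ) : Prop :=
  ∃ c ∈ C, ∃ t : Fin k → ℕ, (∀ i, (c i).mem (t i) (e i)) ∧ s = ∑ i, t i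

theorem exists_rep {β : Type} (T : Transducer (Fin 1) β) (k : ℕ) :
    ∀ (w : Fin (k + 1) → List β) (p q : T.σ), ∃ C : Set (Fin (k + 1) → Lin), C.Finite ∧
      ∀ s e, s ∈ PS T p (word w e) q ↔ Rep C s e := by
  have := T.fin
  induction k with
  | zero =>
    intro w p q
    obtain ⟨F, hF, h⟩ := semilinear_lins (semilinear_BQ (w 0) p q)
    refine ⟨(fun L => fun _ => L) '' F, hF.image _, fun s e => ?_⟩
    have e1 : s ∈ PS T p (word w e) q ↔ (s, e 0) ∈ BQ T (w 0) p q := by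
      rw [word_succ, word_zero, List.append_nil]
      exact Iff.rfl
    rw [e1, h]
    constructor
    · rintro ⟨L, hL, hm⟩
      refine ⟨fun _ => L, ⟨L, hL, rfl⟩, fun _ => s, ?_, by simp⟩
      intro i
      obtain rfl : i = 0 := Fin.eq_zero i
      exact hm
    · rintro ⟨_, ⟨L, hL, rfl⟩, t, ht, hs⟩
      have := ht 0
      rw [Fin.sum_univ_one] at hs
      exact ⟨L, hL, hs ▸ this⟩
  | succ k ih =>
    intro w p q
    choose F hF h using fun r => semilinear_lins (semilinear_BQ (T := T) (w 0) p r)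
    choose C hC h' using fun r => ih (fun i => w i.succ) r q
    refine ⟨⋃ r, Set.image2 (fun L c => (Fin.cons L c : Fin (k + 1 + 1) → Lin)) (F r) (C r),
      Set.finite_iUnion fun r => Set.Finite.image2 _ (hF r) (hC r), fun s e => ?_⟩
    rw [word_succ]
    constructor
    · intro hs
      obtain ⟨r, a, b, rfl, ha, hb⟩ := PS_split hs
      obtain ⟨L, hL, hm⟩ := (h r a (e 0)).1 ha
      obtain ⟨c, hc, t, ht, rfl⟩ := (h' r b _).1 hb
      refine ⟨Fin.cons L c, mem_iUnion.2 ⟨r, L, hL, c, hc, rfl⟩, Fin.cons a t, ?_, ?_⟩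
      · intro i
        refine Fin.cases ?_ (fun i => ?_) i
        · exact hm
        · exact ht i
      · rw [Fin.sum_univ_succ (fun i => (Fin.cons a t : Fin (k + 1 + 1) → ℕ) i)]
        simp only [Fin.cons_zero, Fin.cons_succ]
    · rintro ⟨c, hc, t, ht, rfl⟩
      obtain ⟨r, L, hL, c', hc', rfl⟩ := mem_iUnion.1 hc
      rw [Fin.sum_univ_succ]
      refine PS_append (r := r) ?_ ?_
      · exact (h r (t 0) (e 0)).2 ⟨L, hL, ht 0⟩
      · exact (h' r _ _).2 ⟨c', hc', fun i => t i.succ, fun i => ht i.succ, rfl⟩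

/-- the unary language `{a^s : s ∈ S}` -/
def LS (S : Set ℕ) : Language (Fin 1) := {u | u.length ∈ S}

/-- exponent vectors of the words in the image of `LS S` -/
def VS {k : ℕ} (C : Set (Fin k → Lin)) (S : Set ℕ) : Set (Fin k → ℕ) :=
  {e | ∃ s ∈ S, Rep C s e}

theorem exists_comps {β : Type} (T : Transducer (Fin 1) β) {k : ℕ} (w : Fin (k + 1) → List β)
    (S : Set ℕ) : ∃ C : Set (Fin (k + 1) → Lin), C.Finite ∧
      ∀ e, word w e ∈ T.image (LS S) ↔ e ∈ VS C S := by
  have := T.fin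
  choose C hC h using exists_rep T k w
  refine ⟨⋃ x ∈ {x : T.σ × T.σ | T.start x.1 ∧ T.final x.2}, C x.1 x.2,
    Set.Finite.biUnion (Set.toFinite _) fun x _ => hC _ _, fun e => ?_⟩
  constructor
  · rintro ⟨u, hu, p, q, hp, hq, hpath⟩
    refine ⟨u.length, hu, ?_⟩
    obtain ⟨c, hc, h1⟩ := (h p q _ _).1 (PS_of hpath)
    exact ⟨c, mem_iUnion₂.2 ⟨(p, q), ⟨hp, hq⟩, hc⟩, h1⟩
  · rintro ⟨s, hs, c, hc, h1⟩
    obtain ⟨⟨p, q⟩, ⟨hp, hq⟩, hc'⟩ := mem_iUnion₂.1 hc
    refine ⟨List.replicate s 0, ?_, p, q, hp, hq, ?_⟩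
    · change (List.replicate s (0 : Fin 1)).length ∈ S
      rwa [List.length_replicate]
    · exact (h p q _ _).2 ⟨c, hc', h1⟩

end Pool.Agent.V8H44.RC
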