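import Pool.Agent.V8H44.RC.Sset

/-!
A finite union of preimages of the set `Sx` under increasing affine maps of `ℕ` determines `Sx`.
-/

set_option autoImplicit false

namespace Pool.Agent.V8H44.RC

open Nat

theorem recL_aux (x1 x : ℕ × ℕ) (h1 : 0 < x1.1) (hne : x ≠ x1) :
    ∃ Q : ℕ, 0 < Q ∧ ∃ N : ℕ, ∀ s ∈ Sx, N ≤ s →
      ¬ ((Q : ℤ) ∣ ((x1.1 : ℤ) - x.1) * s - ((x1.1 : ℤ) * x.2 - x.1 * x1.2)) := by
  by_cases h : x1.1 = x.1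
  · have hα : ((x1.1 : ℤ) * x.2 - x.1 * x1.2) ≠ 0 := by
      intro h0
      rw [← h] at h0
      have h2 : (x1.1 : ℤ) * ((x.2 : ℤ) - x1.2) = 0 := by
        rw [mul_sub]
        exact h0
      rcases mul_eq_zero.1 h2 with h3 | h3
      · omega
      · exact hne (Prod.ext h.symm (by omega))
    refine ⟨((x1.1 : ℤ) * x.2 - x.1 * x1.2).natAbs + 1, Nat.succ_pos _, 0, fun s _ _ hdvd => ?_⟩
    have e : ((x1.1 : ℤ) - x.1) * s - ((x1.1 : ℤ) * x.2 - x.1 * x1.2) =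
        -((x1.1 : ℤ) * x.2 - x.1 * x1.2) := by
      rw [h]; ring
    rw [e, dvd_neg] at hdvd
    have g1 := Int.natAbs_dvd_natAbs.2 hdvd
    rw [Int.natAbs_natCast] at g1
    have g2 := Nat.le_of_dvd (Int.natAbs_pos.2 hα) g1
    omega
  · exact irrat _ _ (by omega)

theorem recL {E : Set (ℕ × ℕ)} (hE : E.Finite) (hpos : ∀ x ∈ E, 0 < x.1) {x1 : ℕ × ℕ}
    (hx1 : x1 ∈ E) (hit : ∀ N, ∃ t, N ≤ t ∧ x1.2 + x1.1 * t ∈ Sx) :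
    ∃ t0 Q β s1 : ℕ, 0 < β ∧ ∀ s, s1 ≤ s → (s ∈ Sx ↔ ∃ u, s = s1 + β * u ∧
      ∃ x ∈ E, x.2 + x.1 * (t0 + u * Q) ∈ Sx) := by
  classical
  have hp1 := hpos x1 hx1
  have key : ∀ x : ℕ × ℕ, ∃ Q : ℕ, 0 < Q ∧ ∃ N : ℕ, x ≠ x1 → ∀ s ∈ Sx, N ≤ s →
      ¬ ((Q : ℤ) ∣ ((x1.1 : ℤ) - x.1) * s - ((x1.1 : ℤ) * x.2 - x.1 * x1.2)) := by
    intro x
    by_cases hne : x = x1
    · exact ⟨1, Nat.one_pos, 0, fun h => absurd hne h⟩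
    · obtain ⟨Q, hQ, N, h⟩ := recL_aux x1 x hp1 hne
      exact ⟨Q, hQ, N, fun _ => h⟩
  choose q hq0 n hn using key
  obtain ⟨Q, hQ⟩ : ∃ Q, Q = ∏ x ∈ hE.toFinset, q x := ⟨_, rfl⟩
  have hQ0 : 0 < Q := by
    rw [hQ]
    exact Finset.prod_pos fun x _ => hq0 x
  have hqQ : ∀ x ∈ E, q x ∣ Q := by
    intro x hx
    rw [hQ]
    exact Finset.dvd_prod_of_mem _ (hE.mem_toFinset.2 hx)
  obtain ⟨N, hN⟩ : ∃ N, N = ∑ x ∈ hE.toFinset, n x := ⟨_, rfl⟩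
  have hnN : ∀ x ∈ E, n x ≤ N := by
    intro x hx
    rw [hN]
    exact Finset.single_le_sum (fun _ _ => Nat.zero_le _) (hE.mem_toFinset.2 hx)
  have hβ0 : 0 < x1.1 * Q := Nat.mul_pos hp1 hQ0
  obtain ⟨t0, ht0, hs1⟩ := hit (N + (Q !) ^ 2 + ((x1.1 * Q)!) ^ 2)
  have hle1 : t0 ≤ x1.2 + x1.1 * t0 := by
    have : t0 ≤ x1.1 * t0 := Nat.le_mul_of_pos_left _ hp1
    omega
  refine ⟨t0, Q, x1.1 * Q, x1.2 + x1.1 * t0, hβ0, fun s hs => ?_⟩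
  constructor
  · intro hmem
    have h1 : s ≡ x1.2 + x1.1 * t0 [MOD x1.1 * Q] :=
      (cls hβ0 hmem (by omega)).trans (cls hβ0 hs1 (by omega)).symm
    obtain ⟨u, hu⟩ := (Nat.modEq_iff_dvd' hs).1 h1.symm
    have hsu : s = x1.2 + x1.1 * t0 + x1.1 * Q * u := by omega
    refine ⟨u, hsu, x1, hx1, ?_⟩
    have e : x1.2 + x1.1 * (t0 + u * Q) = x1.2 + x1.1 * t0 + x1.1 * Q * u := by ring
    rw [e, ← hsu]
    exact hmem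
  · rintro ⟨u, hu, x, hx, hmem⟩
    have e : x1.2 + x1.1 * (t0 + u * Q) = x1.2 + x1.1 * t0 + x1.1 * Q * u := by ring
    by_cases hne : x = x1
    · rw [hne, e, ← hu] at hmem
      exact hmem
    · exfalso
      have hpx := hpos x hx
      have hle2 : t0 ≤ x.2 + x.1 * (t0 + u * Q) := by
        have : t0 + u * Q ≤ x.1 * (t0 + u * Q) := Nat.le_mul_of_pos_left _ hpx
        omega
      refine hn x hne _ hs1 (by have := hnN x hx; omega) ?_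
      have h1 : x.2 + x.1 * (t0 + u * Q) ≡ x1.2 + x1.1 * t0 [MOD Q] :=
        (cls hQ0 hmem (by omega)).trans (cls hQ0 hs1 (by omega)).symm
      have h2 : ((Q : ℕ) : ℤ) ∣ ((x1.2 + x1.1 * t0 : ℕ) : ℤ) - (x.2 + x.1 * (t0 + u * Q) : ℕ) :=
        (Nat.modEq_iff_dvd).1 h1
      have h3 : ((q x : ℕ) : ℤ) ∣ (Q : ℤ) := Int.natCast_dvd_natCast.2 (hqQ x hx)
      refine h3.trans ?_
      have h4 : (Q : ℤ) ∣ (x1.1 : ℤ) * (((x1.2 + x1.1 * t0 : ℕ) : ℤ) -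
          (x.2 + x.1 * (t0 + u * Q) : ℕ)) := Dvd.dvd.mul_left h2 _
      have h5 : (Q : ℤ) ∣ (x1.1 : ℤ) * x.1 * u * Q := Dvd.intro_left _ rfl
      have h6 := h4.add h5
      have e6 : (x1.1 : ℤ) * (((x1.2 + x1.1 * t0 : ℕ) : ℤ) -
          (x.2 + x.1 * (t0 + u * Q) : ℕ)) + (x1.1 : ℤ) * x.1 * u * Q =
          ((x1.1 : ℤ) - x.1) * ((x1.2 + x1.1 * t0 : ℕ) : ℤ) -
            ((x1.1 : ℤ) * x.2 - x.1 * x1.2) := by
        push_cast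
        ring
      rw [e6] at h6
      exact h6

end Pool.Agent.V8H44.RC
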