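import Mathlib

/-!
Sets of vectors which are periodic in each large coordinate.
-/

set_option autoImplicit false

namespace Pool.Agent.V8H44.RC

open Set Function

variable {k : ℕ}

/-- the set is periodic in each large coordinate -/
def UP (X : Set (Fin k → ℕ)) : Prop :=
  ∃ K D, 0 < D ∧ ∀ m i, K ≤ m i → (m ∈ X ↔ update m i (m i + D) ∈ X)

theorem UP.mul {X : Set (Fin k → ℕ)} {K D : ℕ}
    (h : ∀ m i, K ≤ m i → (m ∈ X ↔ update m i (m i + D) ∈ X)) (n : ℕ) :
    ∀ m i, K ≤ m i → (m ∈ X ↔ update m i (m i + n * D) ∈ X) := by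
  intro m i hm
  induction n with
  | zero => rw [Nat.zero_mul, Nat.add_zero, update_eq_self]
  | succ n ih =>
    rw [ih, h _ i (by rw [update_self]; omega), update_self, update_idem]
    have e : m i + n * D + D = m i + (n + 1) * D := by ring
    rw [e]

theorem UP.of_le {X : Set (Fin k → ℕ)} {K D : ℕ}
    (h : ∀ m i, K ≤ m i → (m ∈ X ↔ update m i (m i + D) ∈ X)) {K' D' : ℕ} (hK : K ≤ K')
    (hD : D ∣ D') : ∀ m i, K' ≤ m i → (m ∈ X ↔ update m i (m i + D') ∈ X) := by
  obtain ⟨n, rfl⟩ := hD
  intro m i hm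
  rw [Nat.mul_comm D n]
  exact UP.mul h n m i (hK.trans hm)

theorem UP.union {X Y : Set (Fin k → ℕ)} (hX : UP X) (hY : UP Y) : UP (X ∪ Y) := by
  obtain ⟨K, D, hD, h⟩ := hX
  obtain ⟨K', D', hD', h'⟩ := hY
  refine ⟨max K K', D * D', Nat.mul_pos hD hD', fun m i hm => ?_⟩
  have h1 := UP.of_le h (le_max_left K K') (Dvd.intro D' rfl) m i hm
  have h2 := UP.of_le h' (le_max_right K K') (Dvd.intro_left D rfl) m i hm
  rw [mem_union, mem_union, h1, h2]

theorem UP.inter {X Y : Set (Fin k → ℕ)} (hX : UP X) (hY : UP Y) : UP (X ∩ Y) := by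
  obtain ⟨K, D, hD, h⟩ := hX
  obtain ⟨K', D', hD', h'⟩ := hY
  refine ⟨max K K', D * D', Nat.mul_pos hD hD', fun m i hm => ?_⟩
  have h1 := UP.of_le h (le_max_left K K') (Dvd.intro D' rfl) m i hm
  have h2 := UP.of_le h' (le_max_right K K') (Dvd.intro_left D rfl) m i hm
  rw [mem_inter_iff, mem_inter_iff, h1, h2]

theorem UP.empty : UP (∅ : Set (Fin k → ℕ)) := ⟨0, 1, Nat.one_pos, fun _ _ _ => by simp⟩

theorem UP.biUnion {ι : Type} (s : Finset ι) {X : ι → Set (Fin k → ℕ)}
    (h : ∀ x ∈ s, UP (X x)) : UP (⋃ x ∈ s, X x) := by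
  classical
  induction s using Finset.induction_on with
  | empty => simpa using UP.empty
  | insert a s ha ih =>
    rw [Finset.set_biUnion_insert]
    exact (h a (Finset.mem_insert_self a s)).union
      (ih fun x hx => h x (Finset.mem_insert_of_mem hx))

theorem UP.iUnion {ι : Type} [Fintype ι] {X : ι → Set (Fin k → ℕ)}
    (h : ∀ x, UP (X x)) : UP (⋃ x, X x) := by
  have := UP.biUnion Finset.univ (X := X) fun x _ => h x
  simpa using this

theorem UP.cyl {Y : Set (Fin k → ℕ)} (hY : UP Y) (i : Fin k) (x : ℕ) :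
    UP {m | update m i x ∈ Y} := by
  obtain ⟨K, D, hD, h⟩ := hY
  refine ⟨K, D, hD, fun m j hm => ?_⟩
  change update m i x ∈ Y ↔ update (update m j (m j + D)) i x ∈ Y
  by_cases hij : j = i
  · subst hij
    rw [update_idem]
  · rw [update_comm hij, h (update m i x) j (by rw [update_of_ne hij]; exact hm),
      update_of_ne hij]

theorem UP.sub_singleton {X : Set (Fin k → ℕ)} {f : Fin k → ℕ} (hX : ∀ m ∈ X, m = f) :
    UP X := by
  refine ⟨∑ j, f j + 1, 1, Nat.one_pos, fun m i hm => ?_⟩
  have hf : f i < m i := by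
    have := Finset.single_le_sum (f := f) (fun _ _ => Nat.zero_le _) (Finset.mem_univ i)
    omega
  constructor
  · intro h
    rw [hX m h] at hf
    omega
  · intro h
    have := congrFun (hX _ h) i
    rw [update_self] at this
    omega

/-- residue class -/
def Cls (I : Finset (Fin k)) (f : Fin k → ℕ) (K D : ℕ) (r : Fin k → ℕ) : Set (Fin k → ℕ) :=
  {m | (∀ j, j ∉ I → m j = f j) ∧ ∀ j ∈ I, K ≤ m j ∧ m j ≡ r j [MOD D]}

theorem UP.cls (I : Finset (Fin k)) (f : Fin k → ℕ) (K : ℕ) {D : ℕ} (hD : 0 < D)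
    (r : Fin k → ℕ) : UP (Cls I f K D r) := by
  classical
  refine ⟨K + ∑ j, f j + 1, D, hD, fun m i hm => ?_⟩
  have hf : f i < m i := by
    have := Finset.single_le_sum (f := f) (fun _ _ => Nat.zero_le _) (Finset.mem_univ i)
    omega
  by_cases hi : i ∈ I
  · have key : ∀ j, update m i (m i + D) j = if j = i then m i + D else m j := by
      intro j
      by_cases hj : j = i
      · subst hj; simp
      · rw [update_of_ne hj, if_neg hj]
    constructor
    · rintro ⟨h1, h2⟩
      refine ⟨fun j hj => ?_, fun j hj => ?_⟩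
      · rw [key, if_neg (by rintro rfl; exact hj hi)]
        exact h1 j hj
      · rw [key]
        split_ifs with h3
        · subst h3
          obtain ⟨h4, h5⟩ := h2 j hj
          refine ⟨by omega, ?_⟩
          exact (Nat.add_modEq_right).trans h5
        · exact h2 j hj
    · rintro ⟨h1, h2⟩
      refine ⟨fun j hj => ?_, fun j hj => ?_⟩
      · have := h1 j hj
        rwa [key, if_neg (by rintro rfl; exact hj hi)] at this
      · have h3 := h2 j hj
        rw [key] at h3
        split_ifs at h3 with h4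
        · subst h4
          refine ⟨by omega, ?_⟩
          exact (Nat.add_modEq_right).symm.trans h3.2
        · exact h3
  · constructor
    · rintro ⟨h1, _⟩
      have := h1 i hi
      omega
    · rintro ⟨h1, _⟩
      have := h1 i hi
      rw [update_self] at this
      omega

end Pool.Agent.V8H44.RC
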