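import Pool.Agent.V8H44.RC.LinA
import Pool.Agent.V8H44.RC.RecL
import Pool.Agent.V8H44.RC.UPS
import Pool.Agent.V8H44.RC.Comp

/-!
The set of the exponent vectors of an image of the unary language of `Sx` on one residue class.
-/

set_option autoImplicit false

namespace Pool.Agent.V8H44.RC

open Set Nat Function

variable {k : ℕ}

/-- the tuple of linear sets contains the pairs -/
def Hit (c : Fin k → Lin) (t m : Fin k → ℕ) : Prop := ∀ i, (c i).mem (t i) (m i)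

theorem mem_VS {C : Set (Fin k → Lin)} {S : Set ℕ} {m : Fin k → ℕ} :
    m ∈ VS C S ↔ ∃ c ∈ C, ∃ t, Hit c t m ∧ ∑ i, t i ∈ S := by
  constructor
  · rintro ⟨s, hs, c, hc, t, ht, rfl⟩
    exact ⟨c, hc, t, ht, hs⟩
  · rintro ⟨c, hc, t, ht, hs⟩
    exact ⟨_, hs, c, hc, t, ht, rfl⟩

theorem Hit.update {c : Fin k → Lin} {t m : Fin k → ℕ} (h : Hit c t m) {i : Fin k} {s x : ℕ}
    (hx : (c i).mem s x) : Hit c (update t i s) (update m i x) := by
  intro j
  by_cases hj : j = i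
  · subst hj
    rw [update_self, update_self]
    exact hx
  · rw [update_of_ne hj, update_of_ne hj]
    exact h j

theorem sum_update (t : Fin k → ℕ) (i : Fin k) (s : ℕ) :
    ∑ j, update t i s j + t i = ∑ j, t j + s := by
  classical
  rw [Finset.sum_update_of_mem (Finset.mem_univ i)]
  have h := Finset.sum_sdiff (f := t) (Finset.subset_univ {i})
  rw [Finset.sum_singleton] at h
  omega

/-- The constants are suitable. -/
structure Good (C : Set (Fin k → Lin)) (W D S0 : ℕ) : Prop where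
  W0 : 0 < W
  D0 : 0 < D
  adm : ∀ c ∈ C, ∀ i, (c i).Adm W D
  a : ∀ c ∈ C, ∀ i, (c i).a ≠ 0 → (c i).a ∣ W
  a' : ∀ c ∈ C, ∀ i, (c i).a' ≠ 0 → (c i).a' ∣ W
  dl : ∀ c ∈ C, ∀ i, (c i).flex → (c i).dl ∣ W
  hS : (W !) ^ 2 ≤ S0
  rho : ∀ c ∈ C, ∀ i, (((c i).rho D) !) ^ 2 ≤ S0

theorem exists_bound {C : Set (Fin k → Lin)} (hC : C.Finite) (g : Lin → ℕ) :
    ∃ B, ∀ c ∈ C, ∀ i, g (c i) ≤ B := by
  classical
  refine ⟨∑ c ∈ hC.toFinset, ∑ i, g (c i), fun c hc i => ?_⟩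
  have h1 : g (c i) ≤ ∑ i, g (c i) :=
    Finset.single_le_sum (f := fun i => g (c i)) (fun _ _ => Nat.zero_le _) (Finset.mem_univ i)
  have h2 : ∑ i, g (c i) ≤ ∑ c ∈ hC.toFinset, ∑ i, g (c i) :=
    Finset.single_le_sum (f := fun c : Fin k → Lin => ∑ i, g (c i)) (fun _ _ => Nat.zero_le _)
      (hC.mem_toFinset.2 hc)
  exact h1.trans h2

theorem exists_good {C : Set (Fin k → Lin)} (hC : C.Finite) : ∃ W D S0, Good C W D S0 := by
  obtain ⟨B, hB⟩ := exists_bound hC fun L => L.a + L.a' + L.dl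
  obtain ⟨B', hB'⟩ := exists_bound hC fun L => L.b + L.b'
  obtain ⟨B'', hB''⟩ := exists_bound hC fun L => ((L.rho (B' ! * B !)) !) ^ 2
  have hd : ∀ x : ℕ, x ≠ 0 → ∀ y, x ≤ y → x ∣ y ! := fun x hx y hy =>
    Nat.dvd_factorial (Nat.pos_of_ne_zero hx) hy
  refine ⟨B !, B' ! * B !, ((B !) !) ^ 2 + B'', Nat.factorial_pos _,
    Nat.mul_pos (Nat.factorial_pos _) (Nat.factorial_pos _), ?_, ?_, ?_, ?_, ?_, ?_⟩
  · intro c hc i
    have h := hB' c hc i
    exact ⟨Nat.factorial_pos _, Nat.mul_pos (Nat.factorial_pos _) (Nat.factorial_pos _),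
      Dvd.intro_left _ rfl, fun hb => Nat.mul_dvd_mul_right (hd _ hb _ (by omega)) _,
      fun hb => Nat.mul_dvd_mul_right (hd _ hb _ (by omega)) _⟩
  · intro c hc i h
    exact hd _ h _ (by have := hB c hc i; omega)
  · intro c hc i h
    exact hd _ h _ (by have := hB c hc i; omega)
  · intro c hc i h
    refine hd _ ?_ _ (by have := hB c hc i; omega)
    have := h.2.2
    unfold Lin.dl
    omega
  · omega
  · intro c hc i
    have := hB'' c hc i
    omega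

/-- the tuple of linear sets is used on the class -/
def Act (K : Set (Fin k → ℕ)) (W : ℕ) (c : Fin k → Lin) : Prop :=
  ∃ m ∈ K, ∃ t, Hit c t m ∧ ∑ i, t i ≡ fs W [MOD W]

theorem act_of {K : Set (Fin k → ℕ)} {W : ℕ} {c : Fin k → Lin} {m t : Fin k → ℕ} (hW : 0 < W)
    (hm : m ∈ K) (ht : Hit c t m) (hs : ∑ i, t i ∈ Sx) (hle : (W !) ^ 2 ≤ ∑ i, t i) :
    Act K W c := ⟨m, hm, t, ht, cls hW hs hle⟩

theorem modEq_sum {t t' : Fin k → ℕ} {W : ℕ} (h : ∀ j, t' j ≡ t j [MOD W]) :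
    ∑ j, t' j ≡ ∑ j, t j [MOD W] := by
  classical
  induction (Finset.univ : Finset (Fin k)) using Finset.induction_on with
  | empty => exact Nat.ModEq.refl _
  | insert a s ha ih =>
    rw [Finset.sum_insert ha, Finset.sum_insert ha]
    exact (h a).add ih

section

variable {C : Set (Fin k → Lin)} {W D S0 C0 : ℕ} {I : Finset (Fin k)} {f r : Fin k → ℕ}

theorem K3_le {L : Lin} (h : L.K3 D S0 ≤ C0) : L.K1 D ≤ C0 ∧ L.m0 < C0 := by
  unfold Lin.K3 at h
  have : L.m0 ≤ L.K1 D := by unfold Lin.K1; omega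
  omega

theorem case1 (hG : Good C W D S0) (hC0 : ∀ c ∈ C, ∀ i, (c i).K3 D S0 ≤ C0)
    {c : Fin k → Lin} (hc : c ∈ C) (hact : Act (Cls I f C0 D r) W c) {i : Fin k}
    (hp : (c i).pure) : Cls I f C0 D r ⊆ VS C Sx := by
  classical
  obtain ⟨m', hm', t', ht', hs'⟩ := hact
  intro m hm
  have key : ∀ j, ∃ s, (c j).mem s (m j) ∧ s ≡ t' j [MOD W] := by
    intro j
    by_cases hj : j ∈ I
    · obtain ⟨h1, h2⟩ := hm'.2 j hj
      obtain ⟨h3, h4⟩ := hm.2 j hj
      obtain ⟨g1, g2⟩ := K3_le (hC0 c hc j)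
      obtain ⟨s, h5, h6, _⟩ := Lin.RL (hG.adm c hc j) (ht' j)
        (Lin.ne_of_lt (ht' j) (by omega)) (h2.trans h4.symm) (by omega)
      exact ⟨s, h5, h6⟩
    · refine ⟨t' j, ?_, Nat.ModEq.refl _⟩
      rw [hm.1 j hj, ← hm'.1 j hj]
      exact ht' j
  choose t ht hmod using key
  have hsum : ∑ j, t j ≡ fs W [MOD W] := (modEq_sum hmod).trans hs'
  obtain ⟨s, hs, hle⟩ := unbounded (∑ j, t j + (W !) ^ 2)
  have h1 : ∑ j, t j ≡ s [MOD W] := hsum.trans (cls hG.W0 hs (by omega)).symm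
  obtain ⟨x, hx⟩ := (Nat.modEq_iff_dvd' (by omega)).1 h1
  refine mem_VS.2 ⟨c, hc, update t i (t i + x * W), ?_, ?_⟩
  · have h2 := Hit.update (t := t) (m := m) ht
      (Lin.PL hp (hG.a c hc i) (hG.a' c hc i) (ht i) x)
    rwa [update_eq_self] at h2
  · have h2 := sum_update t i (t i + x * W)
    have h3 : ∑ j, update t i (t i + x * W) j = s := by
      rw [Nat.mul_comm x W] at h2 ⊢
      omega
    rw [h3]
    exact hs

theorem case2 (hG : Good C W D S0) (hC0 : ∀ c ∈ C, ∀ i, (c i).K3 D S0 ≤ C0)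
    (hC1 : ∀ c ∈ C, ∀ i, 2 * (c i).K1 D ≤ C0) {K : ℕ}
    (hK1 : ∀ c ∈ C, ∀ i, k * ((c i).K2 D + (c i).s0 + (∑ j, f j) * ((c i).a + (c i).a')) ≤ K)
    (hK2 : ∀ c ∈ C, ∀ i, 2 * ((c i).b * (c i).b' * W) ≤ K)
    (hgap : ∀ y ≥ C0, ∀ s, s ≤ K * (y + 1) → s ≡ fs W [MOD W] → ∃ t, K * t ≤ y ∧ s + t * W ∈ Sx)
    (hI : I.Nonempty)
    (hact : ∀ i ∈ I, ∃ c ∈ C, Act (Cls I f C0 D r) W c ∧ (∀ j, ¬ (c j).pure) ∧ (c i).flex) :
    Cls I f C0 D r ⊆ VS C Sx := by
  classical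
  intro m hm
  obtain ⟨i, hi, hmax⟩ := Finset.exists_max_image I m hI
  obtain ⟨c, hc, ⟨m', hm', t', ht', hs'⟩, hnp, hfl⟩ := hact i hi
  have hmi := (hm.2 i hi).1
  obtain ⟨s', hs1, hs2, hs3⟩ := Lin.FL (hG.adm c hc i) hfl (hG.dl c hc i hfl) (ht' i)
    ((hm'.2 i hi).2.trans (hm.2 i hi).2.symm) ((K3_le (hC0 c hc i)).1.trans hmi)
  have key : ∀ j, ∃ s, (j ≠ i → (c j).mem s (m j)) ∧ s ≡ t' j [MOD W] ∧
      k * s ≤ K * (m i + 1) ∧ (j = i → s = s') := by
    intro j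
    have hbd := hK1 c hc j
    by_cases hji : j = i
    · subst hji
      refine ⟨s', fun h => absurd rfl h, hs1, ?_, fun _ => rfl⟩
      calc k * s' ≤ k * ((c j).K2 D * (m j + 1)) := Nat.mul_le_mul_left _ hs2
        _ = (k * (c j).K2 D) * (m j + 1) := by ring
        _ ≤ K * (m j + 1) := Nat.mul_le_mul_right _ (by
            refine le_trans (Nat.mul_le_mul_left _ ?_) hbd
            omega)
    by_cases hj : j ∈ I
    · obtain ⟨h1, h2⟩ := hm'.2 j hj
      obtain ⟨h3, h4⟩ := hm.2 j hj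
      obtain ⟨g1, g2⟩ := K3_le (hC0 c hc j)
      obtain ⟨s, h5, h6, h7⟩ := Lin.RL (hG.adm c hc j) (ht' j)
        (Lin.ne_of_lt (ht' j) (by omega)) (h2.trans h4.symm) (by omega)
      refine ⟨s, fun _ => h5, h6, ?_, fun h => absurd h hji⟩
      calc k * s ≤ k * ((c j).K2 D * (m j + 1)) := Nat.mul_le_mul_left _ h7
        _ = (k * (c j).K2 D) * (m j + 1) := by ring
        _ ≤ K * (m j + 1) := Nat.mul_le_mul_right _ (by
            refine le_trans (Nat.mul_le_mul_left _ ?_) hbd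
            omega)
        _ ≤ K * (m i + 1) := Nat.mul_le_mul_left _ (by have := hmax j hj; omega)
    · have hmem : (c j).mem (t' j) (m j) := by
        rw [hm.1 j hj, ← hm'.1 j hj]
        exact ht' j
      refine ⟨t' j, fun _ => hmem, Nat.ModEq.refl _, ?_, fun h => absurd h hji⟩
      have h1 := Lin.bound (hnp j) hmem
      have h2 : m j ≤ ∑ j, f j := by
        rw [hm.1 j hj]
        exact Finset.single_le_sum (f := f) (fun _ _ => Nat.zero_le _) (Finset.mem_univ j)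
      have h3 : m j * ((c j).a + (c j).a') ≤ (∑ j, f j) * ((c j).a + (c j).a') :=
        Nat.mul_le_mul_right _ h2
      calc k * t' j ≤ k * ((c j).K2 D + (c j).s0 + (∑ j, f j) * ((c j).a + (c j).a')) :=
            Nat.mul_le_mul_left _ (by omega)
        _ ≤ K * 1 := by rw [Nat.mul_one]; exact hbd
        _ ≤ K * (m i + 1) := Nat.mul_le_mul_left _ (by omega)
  choose t ht hmod hbd hti using key
  have hsum : ∑ j, t j ≡ fs W [MOD W] := (modEq_sum hmod).trans hs'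
  have hbound : ∑ j, t j ≤ K * (m i + 1) := by
    have hk : 0 < k := Fin.pos i
    have h1 : k * ∑ j, t j ≤ k * (K * (m i + 1)) := by
      rw [Finset.mul_sum]
      refine (Finset.sum_le_card_nsmul _ _ (K * (m i + 1)) fun j _ => hbd j).trans ?_
      rw [Finset.card_univ, Fintype.card_fin, smul_eq_mul]
    exact Nat.le_of_mul_le_mul_left h1 hk
  obtain ⟨x, hx1, hx2⟩ := hgap (m i) hmi _ hbound hsum
  have hx3 : (c i).mem (t i + x * W) (m i) := by
    rw [hti i rfl]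
    refine hs3 x ?_
    have h1 := hC1 c hc i
    have h2 : 2 * ((c i).b * (c i).b' * W) * x ≤ K * x := Nat.mul_le_mul_right _ (hK2 c hc i)
    have h3 : 2 * ((c i).b * (c i).b' * W) * x = 2 * ((c i).b * (c i).b' * W * x) := by ring
    omega
  refine mem_VS.2 ⟨c, hc, update t i (t i + x * W), fun j => ?_, ?_⟩
  · by_cases hj : j = i
    · subst hj
      rw [update_self]
      exact hx3
    · rw [update_of_ne hj]
      exact ht j hj
  · have h2 := sum_update t i (t i + x * W)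
    have h3 : ∑ j, update t i (t i + x * W) j = ∑ j, t j + x * W := by omega
    rw [h3]
    exact hx2

end

end Pool.Agent.V8H44.RC
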