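import Pool.Agent.V8H44.RC.Case

/-!
Dichotomy for the exponent vectors of the words in an image of the unary language of `Sx`: the set
of vectors is periodic in each large coordinate, or it determines the set `Sx`.
-/

set_option autoImplicit false

namespace Pool.Agent.V8H44.RC

open Set Nat Function

variable {k : ℕ}

/-- the set `Sx` can be recovered from the set of vectors -/
def Recov (V : Set (Fin k → ℕ)) : Prop :=
  ∃ (m : Fin k → ℕ) (i : Fin k) (D β s1 : ℕ), 0 < β ∧ ∀ s, s1 ≤ s →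
    (s ∈ Sx ↔ ∃ u, s = s1 + β * u ∧ update m i (m i + u * D) ∈ V)

theorem ap_modEq (z t D : ℕ) : z + t * D ≡ z [MOD D] := by
  have h1 : t * D ≡ 0 [MOD D] := (Nat.modEq_zero_iff_dvd).2 (Dvd.intro_left _ rfl)
  have h2 := (Nat.ModEq.refl z).add h1
  rwa [Nat.add_zero] at h2

section

variable {C : Set (Fin k → Lin)} {W D S0 C0 : ℕ} {I : Finset (Fin k)} {f r : Fin k → ℕ}

theorem case3 (hC : C.Finite) (hG : Good C W D S0) (hC0 : ∀ c ∈ C, ∀ i, (c i).K3 D S0 ≤ C0)
    {i : Fin k} (hi : i ∈ I)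
    (hact : ∀ c ∈ C, Act (Cls I f C0 D r) W c → (∀ j, ¬ (c j).pure) ∧ ¬ (c i).flex)
    (hrec : ¬ Recov (VS C Sx)) {m : Fin k → ℕ} (hm : m ∈ Cls I f C0 D r) (hV : m ∈ VS C Sx)
    {x : ℕ} (hx : C0 ≤ x) (hxr : x ≡ r i [MOD D]) : update m i x ∈ VS C Sx := by
  classical
  by_contra hnot
  apply hrec
  obtain ⟨hmi, hmr⟩ := hm.2 i hi
  obtain ⟨z, hz, t1, ht1, t2, ht2, hzr⟩ : ∃ z, C0 ≤ z ∧ ∃ t1, m i = z + t1 * D ∧ ∃ t2,
      x = z + t2 * D ∧ z ≡ r i [MOD D] := by
    rcases Nat.le_total (m i) x with h | h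
    · obtain ⟨t, ht⟩ := (Nat.modEq_iff_dvd' h).1 (hmr.trans hxr.symm)
      exact ⟨m i, hmi, 0, by simp, t, by rw [Nat.mul_comm t D]; omega, hmr⟩
    · obtain ⟨t, ht⟩ := (Nat.modEq_iff_dvd' h).1 (hxr.trans hmr.symm)
      exact ⟨x, hx, t, by rw [Nat.mul_comm t D]; omega, 0, by simp, hxr⟩
  obtain ⟨P, hP⟩ : ∃ P : ℕ → Fin k → ℕ, P = fun t => update m i (z + t * D) := ⟨_, rfl⟩
  have hPi : ∀ t, P t i = z + t * D := fun t => by rw [hP]; exact update_self _ _ _
  have hPu : ∀ t t', update (P t) i (z + t' * D) = P t' := fun t t' => by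
    rw [hP]; exact update_idem _ _ _
  have hP1 : P t1 = m := by
    rw [hP]
    change update m i (z + t1 * D) = m
    rw [← ht1, update_eq_self]
  have hP2 : P t2 = update m i x := by
    rw [hP]
    change update m i (z + t2 * D) = update m i x
    rw [← ht2]
  have hPc : ∀ t, P t ∈ Cls I f C0 D r := by
    intro t
    refine ⟨fun j hj => ?_, fun j hj => ?_⟩
    · have hji : j ≠ i := by rintro rfl; exact hj hi
      rw [hP]
      change update m i (z + t * D) j = f j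
      rw [update_of_ne hji]
      exact hm.1 j hj
    · by_cases hji : j = i
      · subst hji
        rw [hPi]
        exact ⟨by omega, (ap_modEq z t D).trans hzr⟩
      · rw [hP]
        change C0 ≤ update m i (z + t * D) j ∧ update m i (z + t * D) j ≡ r j [MOD D]
        rw [update_of_ne hji]
        exact hm.2 j hj
  have hnot' : P t2 ∉ VS C Sx := by rw [hP2]; exact hnot
  -- a hit with the same first coordinate everywhere on the line
  have same : ∀ t c τ, c ∈ C → Hit c τ (P t) → ∑ j, τ j ∈ Sx →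
      (c i).mem (τ i) (z + t2 * D) → False := by
    intro t c τ hc ht hs h
    apply hnot'
    refine mem_VS.2 ⟨c, hc, τ, ?_, hs⟩
    have := Hit.update ht h
    rwa [update_eq_self, hPu] at this
  have hlarge : ∀ t c τ, c ∈ C → Hit c τ (P t) → ∑ j, τ j ∈ Sx → S0 ≤ ∑ j, τ j := by
    intro t c τ hc ht hs
    by_contra hlt
    refine same t c τ hc ht hs ?_
    have h1 := ht i
    rw [hPi] at h1
    have h2 : τ i ≤ ∑ j, τ j :=
      Finset.single_le_sum (f := τ) (fun _ _ => Nat.zero_le _) (Finset.mem_univ i)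
    have h3 := hC0 c hc i
    exact Lin.ZL (S0 := S0) (hG.adm c hc i) h1 (by omega) (by omega) (by omega)
      ((ap_modEq z t D).trans (ap_modEq z t2 D).symm)
  have hbne : ∀ t c τ, c ∈ C → Hit c τ (P t) → (c i).b ≠ 0 ∨ (c i).b' ≠ 0 := by
    intro t c τ hc ht
    have h1 := ht i
    rw [hPi] at h1
    have h2 := K3_le (hC0 c hc i)
    exact Lin.ne_of_lt h1 (by omega)
  have hrho : ∀ t c τ, c ∈ C → Hit c τ (P t) → ∑ j, τ j ∈ Sx → (∀ j, ¬ (c j).pure) →
      ¬ (c i).flex → 0 < (c i).rho D := by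
    intro t c τ hc ht hs hnp hnf
    by_contra h0
    have h0' : (c i).rho D = 0 := by omega
    have hb := hbne t c τ hc ht
    have hq := Lin.q_dvd (hG.adm c hc i) hb
    have hq0 := Lin.q_ne hb
    have h1 : 0 < D / (c i).q := Nat.div_pos (Nat.le_of_dvd hG.D0 hq) (Nat.pos_of_ne_zero hq0)
    have hp0 : (c i).p = 0 := by
      unfold Lin.rho at h0'
      rcases Nat.mul_eq_zero.1 h0' with h | h
      · exact h
      · omega
    have h2 := ht i
    rw [hPi] at h2
    have h3 := K3_le (hC0 c hc i)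
    obtain ⟨s', h4, _, _⟩ := Lin.RL (hG.adm c hc i) h2 hb
      ((ap_modEq z t D).trans (ap_modEq z t2 D).symm) (by omega)
    have h5 := Lin.rigid_eq (hnp i) hnf h2
    have h6 := Lin.rigid_eq (hnp i) hnf h4
    rw [hp0] at h5 h6
    have h7 : (c i).q * τ i = (c i).q * s' := by omega
    have h8 := Nat.eq_of_mul_eq_mul_left (Nat.pos_of_ne_zero hq0) h7
    exact same t c τ hc ht hs (h8 ▸ h4)
  obtain ⟨E, hEdef⟩ : ∃ E : Set (ℕ × ℕ), E = {y | ∃ c ∈ C, (∀ j, ¬ (c j).pure) ∧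
      0 < (c i).rho D ∧ y.1 = (c i).rho D ∧ ∃ τ, Hit c τ (P 0) ∧ y.2 = ∑ j, τ j} := ⟨_, rfl⟩
  have hEfin : E.Finite := by
    refine Set.Finite.subset (s := ⋃ c ∈ C, ({(c i).rho D} : Set ℕ) ×ˢ
      Iic (∑ j, ((c j).s0 + P 0 j * ((c j).a + (c j).a')))) ?_ ?_
    · exact hC.biUnion fun c _ => (finite_singleton _).prod (finite_Iic _)
    · rw [hEdef]
      rintro ⟨y1, y2⟩ ⟨c, hc, hnp, _, h1, τ, ht, h2⟩
      refine mem_iUnion₂.2 ⟨c, hc, ?_, ?_⟩
      · exact h1
      · change y2 ≤ _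
        rw [show y2 = ∑ j, τ j from h2]
        exact Finset.sum_le_sum fun j _ => Lin.bound (hnp j) (ht j)
  have hpos : ∀ y ∈ E, 0 < y.1 := by
    rw [hEdef]
    rintro y ⟨c, hc, _, h1, h2, _⟩
    rw [h2]
    exact h1
  have toE : ∀ t, P t ∈ VS C Sx → ∃ y ∈ E, y.2 + y.1 * t ∈ Sx ∧ S0 ≤ y.2 + y.1 * t ∧
      (y.1 !) ^ 2 ≤ S0 := by
    intro t hPt
    obtain ⟨c, hc, τ, ht, hs⟩ := mem_VS.1 hPt
    have hl := hlarge t c τ hc ht hs
    obtain ⟨hnp, hnf⟩ := hact c hc (act_of hG.W0 (hPc t) ht hs (hG.hS.trans hl))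
    have hr := hrho t c τ hc ht hs hnp hnf
    have h2 := ht i
    rw [hPi] at h2
    have h3 := K3_le (hC0 c hc i)
    obtain ⟨s1, h4, h5⟩ := Lin.down (hG.adm c hc i) (hnp i) hnf (hbne t c τ hc ht) h2 (by omega)
    have h6 := sum_update τ i s1
    have e : ∑ j, update τ i s1 j + (c i).rho D * t = ∑ j, τ j := by
      rw [Nat.mul_comm]
      omega
    refine ⟨((c i).rho D, ∑ j, update τ i s1 j), ?_, ?_, ?_, hG.rho c hc i⟩
    · rw [hEdef]
      refine ⟨c, hc, hnp, hr, rfl, update τ i s1, ?_, rfl⟩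
      have h7 : (c i).mem s1 (z + 0 * D) := by simpa using h4
      have := Hit.update ht h7
      rwa [hPu] at this
    · change ∑ j, update τ i s1 j + (c i).rho D * t ∈ Sx
      rw [e]
      exact hs
    · change S0 ≤ ∑ j, update τ i s1 j + (c i).rho D * t
      rw [e]
      exact hl
  have fromE : ∀ t, ∀ y ∈ E, y.2 + y.1 * t ∈ Sx → P t ∈ VS C Sx := by
    rw [hEdef]
    rintro t ⟨y1, y2⟩ ⟨c, hc, hnp, hr, h1, τ, ht, h2⟩ hs
    change y1 = _ at h1
    change y2 = _ at h2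
    change y2 + y1 * t ∈ Sx at hs
    have h3 := ht i
    rw [hPi] at h3
    have h4 := Lin.up (hG.adm c hc i) (hbne 0 c τ hc ht) h3 t
    have h5 := Hit.update ht h4
    have e1 : z + 0 * D + t * D = z + t * D := by ring
    rw [e1, hPu] at h5
    refine mem_VS.2 ⟨c, hc, _, h5, ?_⟩
    have h6 := sum_update τ i (τ i + t * (c i).rho D)
    have e2 : ∑ j, update τ i (τ i + t * (c i).rho D) j = y2 + y1 * t := by
      rw [h1, h2, Nat.mul_comm _ t]
      omega
    rw [e2]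
    exact hs
  obtain ⟨y, hy, hyS, hyl, hyr⟩ := toE t1 (by rw [hP1]; exact hV)
  have hit : ∀ N, ∃ t, N ≤ t ∧ y.2 + y.1 * t ∈ Sx := by
    intro N
    obtain ⟨s', hs', hle⟩ := unbounded (y.2 + y.1 * t1 + y.1 * N)
    have hy0 := hpos y hy
    have h1 : y.2 + y.1 * t1 ≡ s' [MOD y.1] :=
      (cls hy0 hyS (by omega)).trans (cls hy0 hs' (by omega)).symm
    obtain ⟨u, hu⟩ := (Nat.modEq_iff_dvd' (by omega)).1 h1
    refine ⟨t1 + u, ?_, ?_⟩
    · have h2 : y.1 * N ≤ y.1 * (t1 + u) := by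
        rw [Nat.mul_add]
        omega
      exact Nat.le_of_mul_le_mul_left h2 hy0
    · have e : y.2 + y.1 * (t1 + u) = s' := by
        rw [Nat.mul_add]
        omega
      rw [e]
      exact hs'
  obtain ⟨t0, Q, β, s1, hβ, hR⟩ := recL hEfin hpos hy hit
  refine ⟨P t0, i, Q * D, β, s1, hβ, fun s hs => ?_⟩
  rw [hR s hs]
  have e : ∀ u, update (P t0) i (P t0 i + u * (Q * D)) = P (t0 + u * Q) := by
    intro u
    rw [hPi]
    have e1 : z + t0 * D + u * (Q * D) = z + (t0 + u * Q) * D := by ring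
    rw [e1, hPu]
  constructor
  · rintro ⟨u, hu, y', hy', hmem⟩
    refine ⟨u, hu, ?_⟩
    rw [e]
    exact fromE _ y' hy' hmem
  · rintro ⟨u, hu, hmem⟩
    rw [e] at hmem
    obtain ⟨y', hy', h1, _⟩ := toE _ hmem
    exact ⟨u, hu, y', hy', h1⟩

/-- on a residue class the set of vectors is everything or does not depend on some coordinate -/
theorem class_dich (hC : C.Finite) (hG : Good C W D S0)
    (hC0 : ∀ c ∈ C, ∀ i, (c i).K3 D S0 ≤ C0)
    (hC1 : ∀ c ∈ C, ∀ i, 2 * (c i).K1 D ≤ C0) {K : ℕ}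
    (hK1 : ∀ c ∈ C, ∀ i, k * ((c i).K2 D + (c i).s0 + (∑ j, f j) * ((c i).a + (c i).a')) ≤ K)
    (hK2 : ∀ c ∈ C, ∀ i, 2 * ((c i).b * (c i).b' * W) ≤ K)
    (hgap : ∀ y ≥ C0, ∀ s, s ≤ K * (y + 1) → s ≡ fs W [MOD W] → ∃ t, K * t ≤ y ∧ s + t * W ∈ Sx)
    (hI : I.Nonempty) (hrec : ¬ Recov (VS C Sx)) :
    Cls I f C0 D r ⊆ VS C Sx ∨ ∃ i ∈ I, ∀ m ∈ Cls I f C0 D r, m ∈ VS C Sx → ∀ x, C0 ≤ x →
      x ≡ r i [MOD D] → update m i x ∈ VS C Sx := by
  by_cases h1 : ∃ c ∈ C, Act (Cls I f C0 D r) W c ∧ ∃ i, (c i).pure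
  · obtain ⟨c, hc, ha, i, hp⟩ := h1
    exact Or.inl (case1 hG hC0 hc ha hp)
  · have h1' : ∀ c ∈ C, Act (Cls I f C0 D r) W c → ∀ i, ¬ (c i).pure :=
      fun c hc ha i hp => h1 ⟨c, hc, ha, i, hp⟩
    by_cases h2 : ∀ i ∈ I, ∃ c ∈ C, Act (Cls I f C0 D r) W c ∧ (∀ j, ¬ (c j).pure) ∧ (c i).flex
    · exact Or.inl (case2 hG hC0 hC1 hK1 hK2 hgap hI h2)
    · push Not at h2
      obtain ⟨i, hi, h3⟩ := h2
      refine Or.inr ⟨i, hi, fun m hm hV x hx hxr => ?_⟩
      exact case3 hC hG hC0 hi (fun c hc ha => ⟨h1' c hc ha, h3 c hc ha (h1' c hc ha)⟩) hrec hm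
        hV hx hxr

end

theorem dichotomy {C : Set (Fin k → Lin)} (hC : C.Finite) (hrec : ¬ Recov (VS C Sx)) :
    UP (VS C Sx) := by
  classical
  obtain ⟨W, D, S0, hG⟩ := exists_good hC
  suffices h : ∀ (I : Finset (Fin k)) (f : Fin k → ℕ), UP (VS C Sx ∩ {m | ∀ j, j ∉ I → m j = f j}) by
    have h1 := h Finset.univ 0
    have e : VS C Sx ∩ {m | ∀ j, j ∉ (Finset.univ : Finset (Fin k)) → m j = (0 : Fin k → ℕ) j} =
        VS C Sx := by
      ext m
      simp
    rwa [e] at h1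
  intro I
  induction I using Finset.strongInduction with
  | H I ih =>
  intro f
  rcases Finset.eq_empty_or_nonempty I with rfl | hI
  · refine UP.sub_singleton (f := f) ?_
    rintro m ⟨_, hm⟩
    funext j
    exact hm j (Finset.notMem_empty j)
  -- constants
  obtain ⟨K, hK⟩ := exists_bound hC fun L =>
    k * (L.K2 D + L.s0 + (∑ j, f j) * (L.a + L.a')) + 2 * (L.b * L.b' * W)
  obtain ⟨Y, hY⟩ := gap hG.W0 K
  obtain ⟨B, hB⟩ := exists_bound hC fun L => L.K3 D S0 + 2 * L.K1 D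
  obtain ⟨C0, hC0⟩ : ∃ C0, C0 = B + Y := ⟨_, rfl⟩
  have dich := fun r : Fin k → ℕ => class_dich (r := r) (f := f) (C0 := C0) hC hG
    (fun c hc i => by have := hB c hc i; omega) (fun c hc i => by have := hB c hc i; omega)
    (K := K) (fun c hc i => by have := hK c hc i; omega)
    (fun c hc i => by have := hK c hc i; omega)
    (fun y hy => hY y (by omega)) hI hrec
  -- the slices and the classes
  have hdec : VS C Sx ∩ {m | ∀ j, j ∉ I → m j = f j} =
      (⋃ i ∈ I, ⋃ c ∈ Finset.range C0, (VS C Sx ∩ {m | ∀ j, j ∉ I.erase i → m j = update f i c j})) ∪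
      ⋃ r : Fin k → Fin D, (VS C Sx ∩ Cls I f C0 D fun j => (r j : ℕ)) := by
    ext m
    constructor
    · rintro ⟨hV, hm⟩
      by_cases hall : ∀ j ∈ I, C0 ≤ m j
      · right
        refine mem_iUnion.2 ⟨fun j => ⟨m j % D, Nat.mod_lt _ hG.D0⟩, hV, hm, fun j hj => ?_⟩
        exact ⟨hall j hj, (Nat.mod_modEq _ _).symm⟩
      · push Not at hall
        obtain ⟨i, hi, hlt⟩ := hall
        left
        refine mem_iUnion₂.2 ⟨i, hi, mem_iUnion₂.2 ⟨m i, Finset.mem_range.2 hlt, hV, ?_⟩⟩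
        intro j hj
        by_cases hji : j = i
        · subst hji
          rw [update_self]
        · rw [update_of_ne hji]
          exact hm j fun h => hj (Finset.mem_erase.2 ⟨hji, h⟩)
    · rintro (h | h)
      · obtain ⟨i, hi, h⟩ := mem_iUnion₂.1 h
        obtain ⟨c, hc, hV, hm⟩ := mem_iUnion₂.1 h
        refine ⟨hV, fun j hj => ?_⟩
        have hji : j ≠ i := by rintro rfl; exact hj hi
        have := hm j fun h => hj (Finset.mem_of_mem_erase h)
        rwa [update_of_ne hji] at this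
      · obtain ⟨r, hV, hm⟩ := mem_iUnion.1 h
        exact ⟨hV, hm.1⟩
  rw [hdec]
  refine UP.union (UP.biUnion I fun i hi => UP.biUnion _ fun c _ =>
    ih (I.erase i) (Finset.erase_ssubset hi) _) (UP.iUnion fun r => ?_)
  rcases dich fun j => (r j : ℕ) with h | ⟨i, hi, h⟩
  · rw [inter_eq_self_of_subset_right h]
    exact UP.cls I f C0 hG.D0 _
  · -- a cylinder
    obtain ⟨x, hx⟩ : ∃ x, x = (r i : ℕ) + C0 * D := ⟨_, rfl⟩
    have hx1 : C0 ≤ x := by
      have : C0 ≤ C0 * D := Nat.le_mul_of_pos_right _ hG.D0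
      omega
    have hx2 : x ≡ (r i : ℕ) [MOD D] := by
      rw [hx]
      exact ap_modEq _ _ _
    have e : (VS C Sx ∩ Cls I f C0 D fun j => (r j : ℕ)) =
        {m | update m i x ∈ VS C Sx ∩ {m | ∀ j, j ∉ I.erase i → m j = update f i x j}} ∩
          Cls I f C0 D fun j => (r j : ℕ) := by
      ext m
      constructor
      · rintro ⟨hV, hm⟩
        refine ⟨⟨h m hm hV x hx1 hx2, fun j hj => ?_⟩, hm⟩
        by_cases hji : j = i
        · subst hji
          rw [update_self, update_self]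
        · rw [update_of_ne hji, update_of_ne hji]
          exact hm.1 j fun h => hj (Finset.mem_erase.2 ⟨hji, h⟩)
      · rintro ⟨⟨hV, _⟩, hm⟩
        refine ⟨?_, hm⟩
        have hm' : update m i x ∈ Cls I f C0 D fun j => (r j : ℕ) := by
          refine ⟨fun j hj => ?_, fun j hj => ?_⟩
          · have hji : j ≠ i := by rintro rfl; exact hj hi
            rw [update_of_ne hji]
            exact hm.1 j hj
          · by_cases hji : j = i
            · subst hji
              rw [update_self]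
              exact ⟨hx1, hx2⟩
            · rw [update_of_ne hji]
              exact hm.2 j hj
        have := h _ hm' hV (m i) (hm.2 i hi).1 (hm.2 i hi).2
        rwa [update_idem, update_eq_self] at this
    rw [e]
    exact ((ih (I.erase i) (Finset.erase_ssubset hi) _).cyl i x).inter
      (UP.cls I f C0 hG.D0 _)

end Pool.Agent.V8H44.RC
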