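import Mathlib

/-!
Walks in a finite graph whose edges are labelled by semilinear sets: the set of the sums of the
labels of the walks between two vertices is semilinear.
-/

set_option autoImplicit false

namespace Pool.Agent.V8H44.RC

open Set Pointwise AddSubmonoid

section
variable {M : Type} [AddCommMonoid M] {σ : Type}

/-- sums of labels along walks with at least one edge, intermediate vertices in `K` -/
inductive WK (X : σ → σ → Set M) (K : Set σ) : σ → σ → M → Prop
  | single {p q : σ} {x : M} : x ∈ X p q → WK X K p q x
  | cons {p r q : σ} {x y : M} : x ∈ X p r → r ∈ K → WK X K r q y → WK X K p q (x + y)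

/-- sums of labels along walks (possibly without edges) -/
inductive Walk (X : σ → σ → Set M) : σ → σ → M → Prop
  | nil (p : σ) : Walk X p p 0
  | cons {p r q : σ} {x y : M} : x ∈ X p r → Walk X r q y → Walk X p q (x + y)

variable {X : σ → σ → Set M}

theorem WK.mono {K K' : Set σ} (h : K ⊆ K') {p q : σ} {x : M} (hw : WK X K p q x) :
    WK X K' p q x := by
  induction hw with
  | single hx => exact WK.single hx
  | cons hx hr _ ih => exact WK.cons hx (h hr) ih

theorem WK.append {K : Set σ} {p r q : σ} {x y : M} (h1 : WK X K p r x) (hr : r ∈ K)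
    (h2 : WK X K r q y) : WK X K p q (x + y) := by
  induction h1 with
  | single hx => exact WK.cons hx hr h2
  | cons hx hr' _ ih =>
    rw [add_assoc]
    exact WK.cons hx hr' (ih hr h2)

theorem WK.loops {K : Set σ} {k q : σ} (hk : k ∈ K) {x : M}
    (hx : x ∈ closure {x | WK X K k k x}) {y : M} (h2 : WK X K k q y) : WK X K k q (x + y) := by
  induction hx using closure_induction with
  | mem x hx => exact WK.append hx hk h2
  | zero => rwa [zero_add]
  | add x z _ _ ih1 ih2 =>
    -- generalize over the second walk
    rename_i hx' hz'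
    clear ih1 ih2
    have key : ∀ x ∈ closure {x | WK X K k k x}, ∀ y, WK X K k q y → WK X K k q (x + y) := by
      intro x hx
      induction hx using closure_induction with
      | mem x hx => intro y hy; exact WK.append hx hk hy
      | zero => intro y hy; rwa [zero_add]
      | add x z _ _ ih1 ih2 => intro y hy; rw [add_assoc]; exact ih1 _ (ih2 _ hy)
    rw [add_assoc]
    exact key x hx' _ (key z hz' _ h2)

theorem WK.insert_iff {K : Set σ} {k p q : σ} {x : M} :
    WK X (insert k K) p q x ↔ WK X K p q x ∨
      ∃ a b c, WK X K p k a ∧ b ∈ closure {x | WK X K k k x} ∧ WK X K k q c ∧ x = a + b + c := by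
  constructor
  · intro h
    induction h with
    | single hx => exact Or.inl (WK.single hx)
    | @cons p r q x y hx hr _ ih =>
      rcases hr with rfl | hr
      · rcases ih with h | ⟨a, b, c, ha, hb, hc, rfl⟩
        · exact Or.inr ⟨x, 0, y, WK.single hx, zero_mem _, h, by simp⟩
        · refine Or.inr ⟨x, a + b, c, WK.single hx, add_mem (mem_closure_of_mem ha) hb, hc, ?_⟩
          rw [add_assoc x]
      · rcases ih with h | ⟨a, b, c, ha, hb, hc, rfl⟩
        · exact Or.inl (WK.cons hx hr h)
        · refine Or.inr ⟨x + a, b, c, WK.cons hx hr ha, hb, hc, ?_⟩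
          simp only [add_assoc]
  · rintro (h | ⟨a, b, c, ha, hb, hc, rfl⟩)
    · exact h.mono (subset_insert _ _)
    · have hK := subset_insert k K
      have hb' : b ∈ closure {x | WK X (insert k K) k k x} :=
        closure_mono (fun y hy => WK.mono hK hy) hb
      rw [add_assoc]
      exact WK.append (ha.mono hK) (mem_insert _ _) (WK.loops (mem_insert _ _) hb' (hc.mono hK))

theorem semilinear_WK (hX : ∀ p q, IsSemilinearSet (X p q)) {K : Set σ} (hK : K.Finite) :
    ∀ p q, IsSemilinearSet {x | WK X K p q x} := by
  induction K, hK using Set.Finite.induction_on with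
  | empty =>
    intro p q
    have e : {x | WK X ∅ p q x} = X p q := by
      ext x
      constructor
      · rintro (hx | ⟨_, hr, _⟩)
        · exact hx
        · exact absurd hr (notMem_empty _)
      · exact fun hx => WK.single hx
    rw [e]
    exact hX p q
  | @insert k K _ _ ih =>
    intro p q
    have e : {x | WK X (insert k K) p q x} = {x | WK X K p q x} ∪
        ({x | WK X K p k x} + (closure {x | WK X K k k x} : Set M) + {x | WK X K k q x}) := by
      ext x
      rw [mem_ofPred_eq, WK.insert_iff]
      simp only [mem_union, mem_ofPred_eq, mem_add, SetLike.mem_coe]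
      constructor
      · rintro (h | ⟨a, b, c, ha, hb, hc, rfl⟩)
        · exact Or.inl h
        · exact Or.inr ⟨a + b, ⟨a, ha, b, hb, rfl⟩, c, hc, rfl⟩
      · rintro (h | ⟨_, ⟨a, ha, b, hb, rfl⟩, c, hc, rfl⟩)
        · exact Or.inl h
        · exact Or.inr ⟨a, b, c, ha, hb, hc, rfl⟩
    rw [e]
    exact (ih p q).union (((ih p k).add (ih k k).closure).add (ih k q))

theorem Walk.toWK {p q : σ} {x : M} (h : Walk X p q x) : (p = q ∧ x = 0) ∨ WK X univ p q x := by
  induction h with
  | nil p => exact Or.inl ⟨rfl, rfl⟩
  | cons hx _ ih =>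
    right
    rcases ih with ⟨rfl, rfl⟩ | h
    · rw [add_zero]; exact WK.single hx
    · exact WK.cons hx (mem_univ _) h

theorem WK.toWalk {K : Set σ} {p q : σ} {x : M} (h : WK X K p q x) : Walk X p q x := by
  induction h with
  | @single p q x hx => simpa using Walk.cons hx (Walk.nil q)
  | cons hx _ _ ih => exact Walk.cons hx ih

theorem Walk.append {p r q : σ} {x y : M} (h1 : Walk X p r x) (h2 : Walk X r q y) :
    Walk X p q (x + y) := by
  induction h1 with
  | nil p => rwa [zero_add]
  | cons hx _ ih =>
    rw [add_assoc]
    exact Walk.cons hx (ih h2)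

theorem semilinear_Walk [Finite σ] (hX : ∀ p q, IsSemilinearSet (X p q)) (p q : σ) :
    IsSemilinearSet {x | Walk X p q x} := by
  have e : {x | Walk X p q x} = {x | p = q ∧ x = 0} ∪ {x | WK X univ p q x} := by
    ext x
    constructor
    · exact fun h => h.toWK
    · rintro (⟨rfl, rfl⟩ | h)
      · exact Walk.nil _
      · exact h.toWalk
  rw [e]
  refine IsSemilinearSet.union ?_ (semilinear_WK hX (toFinite _) p q)
  by_cases h : p = q
  · have : {x : M | p = q ∧ x = 0} = {0} := by ext x; simp [h]
    rw [this]
    exact IsSemilinearSet.singleton 0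
  · have : {x : M | p = q ∧ x = 0} = ∅ := by ext x; simp [h]
    rw [this]
    exact IsSemilinearSet.empty

end

end Pool.Agent.V8H44.RC
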