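import Pool.Agent.V8H44.RC.Seg

/-!
Semilinear sets of pairs of natural numbers as finite unions of linear sets with two generators.
-/

set_option autoImplicit false

namespace Pool.Agent.V8H44.RC

open Set Pointwise AddSubmonoid

/-- data of a linear set of pairs with two generators -/
structure Lin where
  /-- base -/
  s0 : ℕ
  /-- base -/
  m0 : ℕ
  /-- first generator -/
  a : ℕ
  /-- first generator -/
  b : ℕ
  /-- second generator -/
  a' : ℕ
  /-- second generator -/
  b' : ℕ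

instance : Inhabited Lin := ⟨⟨0, 0, 0, 0, 0, 0⟩⟩

/-- membership in the linear set -/
def Lin.mem (L : Lin) (s m : ℕ) : Prop :=
  ∃ n n' : ℕ, s = L.s0 + n * L.a + n' * L.a' ∧ m = L.m0 + n * L.b + n' * L.b'

theorem indep_pair {t : Finset (ℕ × ℕ)} (h : LinearIndepOn ℕ id (t : Set (ℕ × ℕ)))
    {x y z : ℕ × ℕ} (hx : x ∈ t) (hy : y ∈ t) (hz : z ∈ t) (hxy : x ≠ y) (hxz : x ≠ z)
    (hyz : y ≠ z) : False := by
  classical
  have hsub : (({x, y, z} : Finset (ℕ × ℕ)) : Set (ℕ × ℕ)) ⊆ (t : Set (ℕ × ℕ)) := by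
    intro w hw
    rw [Finset.mem_coe, Finset.mem_insert, Finset.mem_insert, Finset.mem_singleton] at hw
    rcases hw with rfl | rfl | rfl
    · exact hx
    · exact hy
    · exact hz
  have key := fun (c c' : (ℕ × ℕ) → ℕ) => linearIndepOn_finset_iffₛ.1 (h.mono hsub) c c'
  -- three coefficients
  have key3 : ∀ p q r p' q' r' : ℕ, p • x + q • y + r • z = p' • x + q' • y + r' • z →
      p = p' ∧ q = q' ∧ r = r' := by
    intro p q r p' q' r' he
    have := key (fun w => if w = x then p else if w = y then q else r)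
      (fun w => if w = x then p' else if w = y then q' else r') (by
        rw [Finset.sum_insert (by simp [hxy, hxz]), Finset.sum_insert (by simp [hyz]),
          Finset.sum_singleton, Finset.sum_insert (by simp [hxy, hxz]),
          Finset.sum_insert (by simp [hyz]), Finset.sum_singleton]
        simp only [if_true, if_neg hxy.symm, if_neg hxz.symm, if_neg hyz.symm, id]
        rw [← add_assoc, ← add_assoc]
        exact he)
    have h1 := this x (by simp)
    have h2 := this y (by simp)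
    have h3 := this z (by simp)
    simp only [if_true, if_neg hxy.symm, if_neg hxz.symm, if_neg hyz.symm] at h1 h2 h3
    exact ⟨h1, h2, h3⟩
  obtain ⟨x1, x2⟩ := x
  obtain ⟨y1, y2⟩ := y
  obtain ⟨z1, z2⟩ := z
  obtain ⟨e1, e2, e3⟩ := key3 (y1 * z2) (z1 * x2) (x1 * y2) (y2 * z1) (z2 * x1) (x2 * y1) (by
    simp only [Prod.smul_mk, smul_eq_mul, Prod.mk_add_mk, Prod.mk.injEq]
    constructor <;> ring)
  obtain ⟨f1, f2, _⟩ := key3 y1 0 0 0 x1 0 (by
    simp only [Prod.smul_mk, smul_eq_mul, Prod.mk_add_mk, Prod.mk.injEq]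
    constructor
    · ring
    · simp only [Nat.zero_mul, Nat.add_zero, Nat.zero_add]
      rw [Nat.mul_comm y1 x2, e3])
  obtain ⟨g1, g2, _⟩ := key3 y2 0 0 0 x2 0 (by
    simp only [Prod.smul_mk, smul_eq_mul, Prod.mk_add_mk, Prod.mk.injEq]
    constructor
    · simp only [Nat.zero_mul, Nat.add_zero, Nat.zero_add]
      rw [Nat.mul_comm y2 x1, e3]
    · ring)
  exact hxy (by rw [Prod.mk.injEq]; omega)

theorem linear_two {t : Finset (ℕ × ℕ)} (h : LinearIndepOn ℕ id (t : Set (ℕ × ℕ))) :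
    ∃ v v' : ℕ × ℕ, AddSubmonoid.closure (t : Set (ℕ × ℕ)) = AddSubmonoid.closure {v, v'} := by
  classical
  by_cases h0 : t = ∅
  · subst h0
    refine ⟨0, 0, ?_⟩
    rw [Finset.coe_empty, AddSubmonoid.closure_empty, Set.pair_eq_singleton,
      AddSubmonoid.closure_singleton_zero]
  obtain ⟨v, hv⟩ := Finset.nonempty_iff_ne_empty.2 h0
  by_cases h1 : ∃ v' ∈ t, v' ≠ v
  · obtain ⟨v', hv', hne⟩ := h1
    refine ⟨v, v', ?_⟩
    congr 1
    ext z
    simp only [Finset.mem_coe, mem_insert_iff, mem_singleton_iff]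
    constructor
    · intro hz
      by_contra hcon
      push Not at hcon
      exact indep_pair h hv hv' hz hne.symm (Ne.symm hcon.1) (Ne.symm hcon.2)
    · rintro (rfl | rfl)
      · exact hv
      · exact hv'
  · push Not at h1
    refine ⟨v, v, ?_⟩
    congr 1
    ext z
    simp only [Finset.mem_coe, mem_insert_iff, mem_singleton_iff, or_self]
    exact ⟨fun hz => h1 z hz, fun hz => hz ▸ hv⟩

theorem IsProperLin {R : Set (ℕ × ℕ)} (h : IsProperLinearSet R) :
    ∃ L : Lin, R = {x | L.mem x.1 x.2} := by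
  rw [isProperLinearSet_iff] at h
  obtain ⟨c, t, ht, rfl⟩ := h
  obtain ⟨v, v', hv⟩ := linear_two ht
  refine ⟨⟨c.1, c.2, v.1, v.2, v'.1, v'.2⟩, ?_⟩
  ext ⟨s, m⟩
  rw [hv, mem_vadd_set]
  simp only [SetLike.mem_coe, AddSubmonoid.mem_closure_pair, mem_ofPred_eq, Lin.mem, vadd_eq_add]
  constructor
  · rintro ⟨y, ⟨n, n', rfl⟩, he⟩
    refine ⟨n, n', ?_, ?_⟩
    · have := congrArg Prod.fst he
      simp only [Prod.fst_add, Prod.smul_fst, smul_eq_mul] at this
      omega
    · have := congrArg Prod.snd he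
      simp only [Prod.snd_add, Prod.smul_snd, smul_eq_mul] at this
      omega
  · rintro ⟨n, n', rfl, rfl⟩
    refine ⟨_, ⟨n, n', rfl⟩, ?_⟩
    ext
    · simp only [Prod.fst_add, Prod.smul_fst, smul_eq_mul]; omega
    · simp only [Prod.snd_add, Prod.smul_snd, smul_eq_mul]; omega

theorem semilinear_lins {R : Set (ℕ × ℕ)} (h : IsSemilinearSet R) :
    ∃ F : Set Lin, F.Finite ∧ ∀ s m, (s, m) ∈ R ↔ ∃ L ∈ F, L.mem s m := by
  obtain ⟨S, hS, hS', rfl⟩ := h.isProperSemilinearSet
  choose! f hf using fun (t : Set (ℕ × ℕ)) (ht : t ∈ S) => IsProperLin (hS' t ht)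
  refine ⟨f '' S, hS.image f, fun s m => ?_⟩
  constructor
  · rintro ⟨t, ht, hm⟩
    rw [hf t ht] at hm
    exact ⟨f t, ⟨t, ht, rfl⟩, hm⟩
  · rintro ⟨_, ⟨t, ht, rfl⟩, hm⟩
    refine ⟨t, ht, ?_⟩
    rw [hf t ht]
    exact hm

end Pool.Agent.V8H44.RC
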