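import Pool.Agent.V8H44.RC.Lin

/-!
Arithmetic of linear sets of pairs with two generators.
-/

set_option autoImplicit false

namespace Pool.Agent.V8H44.RC

open Nat

namespace Lin

/-- exchange the generators -/
def swap (L : Lin) : Lin := ⟨L.s0, L.m0, L.a', L.b', L.a, L.b⟩

theorem mem_swap {L : Lin} {s m : ℕ} : L.swap.mem s m ↔ L.mem s m := by
  constructor
  · rintro ⟨n, n', h1, h2⟩
    refine ⟨n', n, ?_, ?_⟩
    · rw [h1]; simp only [swap]; ring
    · rw [h2]; simp only [swap]; ring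
  · rintro ⟨n, n', h1, h2⟩
    refine ⟨n', n, ?_, ?_⟩
    · rw [h1]; simp only [swap]; ring
    · rw [h2]; simp only [swap]; ring

/-- some generator changes only the first coordinate -/
def pure (L : Lin) : Prop := (L.b = 0 ∧ L.a ≠ 0) ∨ (L.b' = 0 ∧ L.a' ≠ 0)

/-- two generators with different slopes -/
def flex (L : Lin) : Prop := L.b ≠ 0 ∧ L.b' ≠ 0 ∧ L.a * L.b' ≠ L.a' * L.b

/-- the moduli are admissible for the linear set -/
structure Adm (L : Lin) (W D : ℕ) : Prop where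
  W0 : 0 < W
  D0 : 0 < D
  WD : W ∣ D
  b : L.b ≠ 0 → L.b * W ∣ D
  b' : L.b' ≠ 0 → L.b' * W ∣ D

theorem Adm.swap {L : Lin} {W D : ℕ} (h : Adm L W D) : Adm L.swap W D :=
  ⟨h.W0, h.D0, h.WD, h.b', h.b⟩

/-- bound -/
def K1 (L : Lin) (D : ℕ) : ℕ := L.m0 + D * (L.b + L.b')

/-- bound -/
def K2 (L : Lin) (D : ℕ) : ℕ := L.s0 + D * (L.a + L.a') + L.a + L.a'

theorem ne_of_lt {L : Lin} {s m : ℕ} (h : L.mem s m) (hm : L.m0 < m) : L.b ≠ 0 ∨ L.b' ≠ 0 := by
  obtain ⟨n, n', _, h2⟩ := h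
  by_contra hcon
  push Not at hcon
  rw [hcon.1, hcon.2] at h2
  simp at h2
  omega

/-- small representative and filling with the first generator -/
theorem fill {L : Lin} {W D : ℕ} (hA : Adm L W D) {s m m' : ℕ} (h : L.mem s m)
    (hb : L.b ≠ 0) (hmm : m ≡ m' [MOD D]) (hK : L.K1 D ≤ m') :
    ∃ n n' N, n < D ∧ n' < D ∧ m' = L.m0 + (n + N) * L.b + n' * L.b' ∧ N ≤ m' ∧
      m' ≤ L.K1 D + N * L.b ∧ L.s0 + (n + N) * L.a + n' * L.a' ≡ s [MOD W] := by
  obtain ⟨n, n', rfl, rfl⟩ := h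
  have hD := hA.D0
  have l1 := Nat.mod_lt n hD
  have l2 := Nat.mod_lt n' hD
  have hm1 : L.m0 + n % D * L.b + n' % D * L.b' ≤ L.K1 D := by
    unfold K1
    have g1 : n % D * L.b ≤ D * L.b := Nat.mul_le_mul_right _ l1.le
    have g2 : n' % D * L.b' ≤ D * L.b' := Nat.mul_le_mul_right _ l2.le
    rw [Nat.mul_add]
    omega
  have e1 : L.m0 + n % D * L.b + n' % D * L.b' ≡ m' [MOD D] := by
    refine Nat.ModEq.trans ?_ hmm
    exact (((Nat.mod_modEq n D).mul_right _).add_left _).add ((Nat.mod_modEq n' D).mul_right _)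
  have hle := hm1.trans hK
  obtain ⟨j, hj⟩ := (Nat.modEq_iff_dvd' hle).1 e1
  obtain ⟨x, hx⟩ := hA.b hb
  have hN : m' - (L.m0 + n % D * L.b + n' % D * L.b') = (W * x * j) * L.b := by
    rw [hj, hx]; ring
  refine ⟨n % D, n' % D, W * x * j, l1, l2, ?_, ?_, ?_, ?_⟩
  · rw [Nat.add_mul]; omega
  · have : W * x * j ≤ (W * x * j) * L.b := Nat.le_mul_of_pos_right _ (Nat.pos_of_ne_zero hb)
    omega
  · omega
  · have g1 : (n % D + W * x * j) * L.a ≡ n * L.a [MOD W] := by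
      refine Nat.ModEq.mul_right _ ?_
      have g3 : n % D ≡ n [MOD W] := (Nat.mod_modEq n D).of_dvd hA.WD
      have g4 : W * x * j ≡ 0 [MOD W] := (Nat.modEq_zero_iff_dvd).2 (by
        rw [Nat.mul_assoc]; exact Dvd.intro _ rfl)
      simpa using g3.add g4
    have g2 : n' % D * L.a' ≡ n' * L.a' [MOD W] :=
      ((Nat.mod_modEq n' D).of_dvd hA.WD).mul_right _
    exact (g1.add_left _).add g2

theorem RL {L : Lin} {W D : ℕ} (hA : Adm L W D) {s m m' : ℕ} (h : L.mem s m)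
    (hb : L.b ≠ 0 ∨ L.b' ≠ 0) (hmm : m ≡ m' [MOD D]) (hK : L.K1 D ≤ m') :
    ∃ s', L.mem s' m' ∧ s' ≡ s [MOD W] ∧ s' ≤ L.K2 D * (m' + 1) := by
  -- the first generator moves the second coordinate
  have key : ∀ L : Lin, Adm L W D → L.mem s m → L.b ≠ 0 → L.K1 D ≤ m' →
      ∃ s', L.mem s' m' ∧ s' ≡ s [MOD W] ∧ s' ≤ L.K2 D * (m' + 1) := by
    intro L hA h hb hK
    obtain ⟨n, n', N, h1, h2, h3, h4, _, h5⟩ := fill hA h hb hmm hK
    refine ⟨_, ⟨n + N, n', rfl, h3⟩, h5, ?_⟩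
    have g1 : n * L.a ≤ D * L.a := Nat.mul_le_mul_right _ h1.le
    have g2 : n' * L.a' ≤ D * L.a' := Nat.mul_le_mul_right _ h2.le
    have g3 : N * L.a ≤ L.a * m' := by
      rw [Nat.mul_comm]; exact Nat.mul_le_mul_left _ h4
    have g4 : L.K2 D * (m' + 1) = L.K2 D * m' + L.K2 D := by ring
    have g5 : L.a * m' ≤ L.K2 D * m' := Nat.mul_le_mul_right _ (by unfold K2; omega)
    have g6 : L.s0 + D * L.a + D * L.a' ≤ L.K2 D := by unfold K2; rw [Nat.mul_add]; omega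
    rw [Nat.add_mul]
    omega
  rcases hb with hb | hb
  · exact key L hA h hb hK
  · obtain ⟨s', h1, h2, h3⟩ := key L.swap hA.swap (mem_swap.2 h) hb (by
      have e : L.swap.K1 D = L.K1 D := by simp only [K1, swap]; ring
      rw [e]; exact hK)
    refine ⟨s', mem_swap.1 h1, h2, ?_⟩
    have e : L.swap.K2 D = L.K2 D := by simp only [K2, swap]; ring
    rw [← e]; exact h3

/-- difference of the cross products -/
def dl (L : Lin) : ℕ := (L.a * L.b' - L.a' * L.b) + (L.a' * L.b - L.a * L.b')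

theorem dl_swap (L : Lin) : L.swap.dl = L.dl := by simp only [dl, swap]; omega

theorem FL {L : Lin} {W D : ℕ} (hA : Adm L W D) (hf : L.flex) (hd : L.dl ∣ W) {s m m' : ℕ}
    (h : L.mem s m) (hmm : m ≡ m' [MOD D]) (hK : L.K1 D ≤ m') :
    ∃ s', s' ≡ s [MOD W] ∧ s' ≤ L.K2 D * (m' + 1) ∧
      ∀ t, L.K1 D + L.b * L.b' * W * t ≤ m' → L.mem (s' + t * W) m' := by
  have key : ∀ L : Lin, Adm L W D → L.dl ∣ W → L.mem s m → L.b ≠ 0 →
      L.a * L.b' < L.a' * L.b → L.K1 D ≤ m' → ∃ s', s' ≡ s [MOD W] ∧ s' ≤ L.K2 D * (m' + 1) ∧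
      ∀ t, L.K1 D + L.b * L.b' * W * t ≤ m' → L.mem (s' + t * W) m' := by
    intro L hA hd h hb hlt hK
    obtain ⟨n, n', N, h1, h2, h3, h4, h6, h5⟩ := fill hA h hb hmm hK
    refine ⟨_, h5, ?_, ?_⟩
    · have g1 : n * L.a ≤ D * L.a := Nat.mul_le_mul_right _ h1.le
      have g2 : n' * L.a' ≤ D * L.a' := Nat.mul_le_mul_right _ h2.le
      have g3 : N * L.a ≤ L.a * m' := by
        rw [Nat.mul_comm]; exact Nat.mul_le_mul_left _ h4
      have g4 : L.K2 D * (m' + 1) = L.K2 D * m' + L.K2 D := by ring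
      have g5 : L.a * m' ≤ L.K2 D * m' := Nat.mul_le_mul_right _ (by unfold K2; omega)
      have g6 : L.s0 + D * L.a + D * L.a' ≤ L.K2 D := by unfold K2; rw [Nat.mul_add]; omega
      rw [Nat.add_mul]
      omega
    · intro t ht
      obtain ⟨x, hx⟩ := hd
      have hdl : L.dl = L.a' * L.b - L.a * L.b' := by unfold dl; omega
      obtain ⟨δ, hδ⟩ : ∃ δ, L.a' * L.b = L.a * L.b' + δ := ⟨L.a' * L.b - L.a * L.b', by omega⟩
      have hδ' : L.dl = δ := by omega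
      have hδ0 : 1 ≤ δ := by omega
      rw [hδ'] at hx
      -- `k = t x`
      have hk : L.b' * (t * x) ≤ N := by
        have g1 : L.b * (L.b' * (t * x)) ≤ N * L.b := by
          have g2 : L.b * (L.b' * (t * x)) ≤ L.b * L.b' * W * t := by
            have g3 : x ≤ W := by rw [hx]; exact Nat.le_mul_of_pos_left _ hδ0
            calc L.b * (L.b' * (t * x)) = (L.b * L.b' * t) * x := by ring
              _ ≤ (L.b * L.b' * t) * W := Nat.mul_le_mul_left _ g3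
              _ = _ := by ring
          omega
        rw [Nat.mul_comm N] at g1
        exact Nat.le_of_mul_le_mul_left g1 (Nat.pos_of_ne_zero hb)
      obtain ⟨r, hr⟩ : ∃ r, N = L.b' * (t * x) + r := ⟨N - L.b' * (t * x), by omega⟩
      refine ⟨n + r, n' + L.b * (t * x), ?_, ?_⟩
      · have e1 : t * W = (t * x) * δ := by rw [hx]; ring
        have e2 : (n' + L.b * (t * x)) * L.a' = n' * L.a' + (t * x) * (L.a' * L.b) := by ring
        rw [e1, e2, hδ, hr]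
        ring
      · rw [h3, hr]
        ring
  obtain ⟨hb, hb', hne⟩ := hf
  rcases lt_or_gt_of_ne hne with hlt | hlt
  · exact key L hA hd h hb hlt hK
  · have e1 : L.swap.K1 D = L.K1 D := by simp only [K1, swap]; ring
    have e2 : L.swap.K2 D = L.K2 D := by simp only [K2, swap]; ring
    obtain ⟨s', h1, h2, h3⟩ := key L.swap hA.swap (by rw [dl_swap]; exact hd) (mem_swap.2 h) hb'
      hlt (by rw [e1]; exact hK)
    refine ⟨s', h1, e2 ▸ h2, fun t ht => mem_swap.1 (h3 t ?_)⟩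
    rw [e1]
    have e3 : L.swap.b * L.swap.b' = L.b * L.b' := by simp only [swap]; ring
    rw [e3]
    exact ht

theorem PL {L : Lin} {W : ℕ} (hp : L.pure) (ha : L.a ≠ 0 → L.a ∣ W) (ha' : L.a' ≠ 0 → L.a' ∣ W)
    {s m : ℕ} (h : L.mem s m) (t : ℕ) : L.mem (s + t * W) m := by
  obtain ⟨n, n', rfl, rfl⟩ := h
  rcases hp with ⟨hb, h0⟩ | ⟨hb, h0⟩
  · obtain ⟨x, hx⟩ := ha h0
    refine ⟨n + t * x, n', ?_, ?_⟩
    · rw [hx]; ring
    · rw [hb]; ring
  · obtain ⟨x, hx⟩ := ha' h0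
    refine ⟨n, n' + t * x, ?_, ?_⟩
    · rw [hx]; ring
    · rw [hb]; ring

theorem bound {L : Lin} (hp : ¬ L.pure) {s m : ℕ} (h : L.mem s m) :
    s ≤ L.s0 + m * (L.a + L.a') := by
  obtain ⟨n, n', rfl, rfl⟩ := h
  unfold pure at hp
  push Not at hp
  have h1 : n * L.a ≤ (L.m0 + n * L.b + n' * L.b') * L.a := by
    by_cases hb : L.b = 0
    · rw [hp.1 hb]; simp
    · apply Nat.mul_le_mul_right
      have : n ≤ n * L.b := Nat.le_mul_of_pos_right _ (Nat.pos_of_ne_zero hb)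
      omega
  have h2 : n' * L.a' ≤ (L.m0 + n * L.b + n' * L.b') * L.a' := by
    by_cases hb : L.b' = 0
    · rw [hp.2 hb]; simp
    · apply Nat.mul_le_mul_right
      have : n' ≤ n' * L.b' := Nat.le_mul_of_pos_right _ (Nat.pos_of_ne_zero hb)
      omega
  rw [Nat.mul_add]
  omega

/-- bound -/
def K3 (L : Lin) (D S0 : ℕ) : ℕ := L.K1 D + S0 * (L.b + L.b') + 1

theorem ZL {L : Lin} {W D : ℕ} (hA : Adm L W D) {s m m' S0 : ℕ} (h : L.mem s m) (hs : s < S0)
    (hm : L.K3 D S0 ≤ m) (hm' : L.K3 D S0 ≤ m') (hmm : m ≡ m' [MOD D]) : L.mem s m' := by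
  have key : ∀ L : Lin, Adm L W D → L.mem s m → L.b ≠ 0 → L.a = 0 → L.K3 D S0 ≤ m' →
      L.mem s m' := by
    intro L hA h hb ha hm'
    obtain ⟨n, n', rfl, rfl⟩ := h
    obtain ⟨r, hr1, hr2, hr3⟩ : ∃ r, r ≡ n' [MOD D] ∧ r * L.b' ≤ D * L.b' + S0 * L.b' ∧
        r * L.a' = n' * L.a' := by
      by_cases ha' : L.a' = 0
      · refine ⟨n' % D, Nat.mod_modEq _ _, ?_, by rw [ha']; simp⟩
        have := Nat.mul_le_mul_right L.b' (Nat.mod_lt n' hA.D0).le
        omega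
      · refine ⟨n', Nat.ModEq.refl _, ?_, rfl⟩
        have h1 : n' ≤ n' * L.a' := Nat.le_mul_of_pos_right _ (Nat.pos_of_ne_zero ha')
        have h2 : n' ≤ S0 := by omega
        have := Nat.mul_le_mul_right L.b' h2
        omega
    have l1 := Nat.mod_lt n hA.D0
    have g1 : n % D * L.b ≤ D * L.b := Nat.mul_le_mul_right _ l1.le
    have hle : L.m0 + n % D * L.b + r * L.b' ≤ m' := by
      unfold K3 K1 at hm'
      rw [Nat.mul_add, Nat.mul_add] at hm'
      omega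
    have e1 : L.m0 + n % D * L.b + r * L.b' ≡ m' [MOD D] := by
      refine Nat.ModEq.trans ?_ hmm
      exact (((Nat.mod_modEq n D).mul_right _).add_left _).add (hr1.mul_right _)
    obtain ⟨j, hj⟩ := (Nat.modEq_iff_dvd' hle).1 e1
    obtain ⟨x, hx⟩ := hA.b hb
    have hN : m' - (L.m0 + n % D * L.b + r * L.b') = (W * x * j) * L.b := by
      rw [hj, hx]; ring
    refine ⟨n % D + W * x * j, r, ?_, ?_⟩
    · rw [ha, hr3]; simp
    · rw [Nat.add_mul]; omega
  by_cases h1 : L.b ≠ 0 ∧ L.a = 0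
  · exact key L hA h h1.1 h1.2 hm'
  by_cases h2 : L.b' ≠ 0 ∧ L.a' = 0
  · have e : L.swap.K3 D S0 = L.K3 D S0 := by simp only [K3, K1, swap]; ring
    exact mem_swap.1 (key L.swap hA.swap (mem_swap.2 h) h2.1 h2.2 (by rw [e]; exact hm'))
  exfalso
  obtain ⟨n, n', rfl, rfl⟩ := h
  have g1 : n * L.b ≤ S0 * L.b := by
    by_cases hb : L.b = 0
    · rw [hb]; simp
    · have ha : L.a ≠ 0 := fun ha => h1 ⟨hb, ha⟩
      have : n ≤ n * L.a := Nat.le_mul_of_pos_right _ (Nat.pos_of_ne_zero ha)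
      exact Nat.mul_le_mul_right _ (by omega)
  have g2 : n' * L.b' ≤ S0 * L.b' := by
    by_cases hb : L.b' = 0
    · rw [hb]; simp
    · have ha : L.a' ≠ 0 := fun ha => h2 ⟨hb, ha⟩
      have : n' ≤ n' * L.a' := Nat.le_mul_of_pos_right _ (Nat.pos_of_ne_zero ha)
      exact Nat.mul_le_mul_right _ (by omega)
  unfold K3 K1 at hm
  rw [Nat.mul_add S0] at hm
  omega

/-- numerator of the slope -/
def p (L : Lin) : ℕ := if L.b ≠ 0 then L.a else L.a'

/-- denominator of the slope -/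
def q (L : Lin) : ℕ := if L.b ≠ 0 then L.b else L.b'

/-- increase of the first coordinate when the second increases by `D` -/
def rho (L : Lin) (D : ℕ) : ℕ := L.p * (D / L.q)

theorem q_ne {L : Lin} (hb : L.b ≠ 0 ∨ L.b' ≠ 0) : L.q ≠ 0 := by
  unfold q
  split_ifs with h
  · exact h
  · exact hb.resolve_left h

theorem q_dvd {L : Lin} {W D : ℕ} (hA : Adm L W D) (hb : L.b ≠ 0 ∨ L.b' ≠ 0) : L.q ∣ D := by
  unfold q
  split_ifs with h
  · exact (Dvd.intro _ rfl).trans (hA.b h)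
  · exact (Dvd.intro _ rfl).trans (hA.b' (hb.resolve_left h))

theorem rigid_eq {L : Lin} (hp : ¬ L.pure) (hf : ¬ L.flex) {s m : ℕ} (h : L.mem s m) :
    L.q * s + L.p * L.m0 = L.q * L.s0 + L.p * m := by
  obtain ⟨n, n', rfl, rfl⟩ := h
  unfold pure at hp
  unfold flex at hf
  push Not at hp hf
  unfold q p
  by_cases hb : L.b = 0
  · simp only [hb, ne_eq, not_true, if_false]
    rw [hp.1 hb]
    ring
  · simp only [if_pos (show L.b ≠ 0 from hb)]
    by_cases hb' : L.b' = 0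
    · rw [hp.2 hb', hb']
      ring
    · have h1 := hf hb hb'
      have h2 : L.b * (n' * L.a') = L.a * (n' * L.b') := by
        calc L.b * (n' * L.a') = n' * (L.a' * L.b) := by ring
          _ = n' * (L.a * L.b') := by rw [h1]
          _ = _ := by ring
      calc L.b * (L.s0 + n * L.a + n' * L.a') + L.a * L.m0
          = L.b * L.s0 + L.a * L.m0 + L.a * n * L.b + L.b * (n' * L.a') := by ring
        _ = L.b * L.s0 + L.a * L.m0 + L.a * n * L.b + L.a * (n' * L.b') := by rw [h2]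
        _ = _ := by ring

theorem uniq {L : Lin} (hp : ¬ L.pure) (hf : ¬ L.flex) (hb : L.b ≠ 0 ∨ L.b' ≠ 0) {s s' m : ℕ}
    (h : L.mem s m) (h' : L.mem s' m) : s = s' := by
  have h1 := rigid_eq hp hf h
  have h2 := rigid_eq hp hf h'
  have h3 : L.q * s = L.q * s' := by omega
  exact Nat.eq_of_mul_eq_mul_left (Nat.pos_of_ne_zero (q_ne hb)) h3

theorem up {L : Lin} {W D : ℕ} (hA : Adm L W D) (hb : L.b ≠ 0 ∨ L.b' ≠ 0) {s m : ℕ}
    (h : L.mem s m) (t : ℕ) : L.mem (s + t * L.rho D) (m + t * D) := by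
  obtain ⟨x, hx⟩ := q_dvd hA hb
  have hq := q_ne hb
  have e : D / L.q = x := by rw [hx]; exact Nat.mul_div_cancel_left _ (Nat.pos_of_ne_zero hq)
  obtain ⟨n, n', rfl, rfl⟩ := h
  unfold rho
  rw [e]
  by_cases hb1 : L.b ≠ 0
  · refine ⟨n + t * x, n', ?_, ?_⟩
    · unfold p; rw [if_pos hb1]; ring
    · have : L.q = L.b := by unfold q; rw [if_pos hb1]
      rw [hx, this]; ring
  · refine ⟨n, n' + t * x, ?_, ?_⟩
    · unfold p; rw [if_neg hb1]; ring
    · have : L.q = L.b' := by unfold q; rw [if_neg hb1]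
      rw [hx, this]; ring

theorem down {L : Lin} {W D : ℕ} (hA : Adm L W D) (hp : ¬ L.pure) (hf : ¬ L.flex)
    (hb : L.b ≠ 0 ∨ L.b' ≠ 0) {s m t : ℕ} (h : L.mem s (m + t * D)) (hK : L.K1 D ≤ m) :
    ∃ s1, L.mem s1 m ∧ s = s1 + t * L.rho D := by
  have e : m + t * D ≡ m [MOD D] := by
    have h1 : t * D ≡ 0 [MOD D] := (Nat.modEq_zero_iff_dvd).2 (Dvd.intro_left _ rfl)
    simpa using (Nat.ModEq.refl m).add h1
  obtain ⟨s1, h1, _, _⟩ := RL hA h hb e hK
  exact ⟨s1, h1, uniq hp hf hb h (up hA hb h1 t)⟩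

end Lin

end Pool.Agent.V8H44.RC
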