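import Pool.Agent.V8H44.RC.Comp
import Pool.Agent.V8H44.RC.UPS

/-!
A set of exponent vectors which is periodic in each large coordinate gives a regular language.
-/

set_option autoImplicit false

namespace Pool.Agent.V8H44.RC

open Set Function

variable {α : Type}

theorem regular_of_family {K : Language α} {Y : Set (Language α)} (hY : Y.Finite)
    (h : ∀ p v : List α, p ++ v ∈ K → ∃ X ∈ Y, v ∈ X ∧ ∀ v' ∈ X, p ++ v' ∈ K) :
    K.IsRegular := by
  apply Language.IsRegular.of_finite_range_leftQuotient
  refine Set.Finite.subset (hY.powerset.image fun Z => (⋃₀ (Z : Set (Set (List α))) : Set (List α)))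
    ?_
  rintro _ ⟨p, rfl⟩
  refine ⟨{X ∈ Y | ∀ v' ∈ X, p ++ v' ∈ K}, fun X hX => hX.1, ?_⟩
  ext v
  constructor
  · rintro ⟨X, ⟨_, hX⟩, hv⟩
    exact hX v hv
  · intro hv
    obtain ⟨X, hX, h1, h2⟩ := h p v hv
    exact ⟨X, ⟨hX, h2⟩, h1⟩

theorem regular_empty : (⊥ : Language α).IsRegular := by
  refine regular_of_family (Y := ∅) Set.finite_empty fun p v h => ?_
  exact absurd h (fun h => h)

theorem regular_nil : Language.IsRegular ({u | u = []} : Language α) := by
  refine regular_of_family (Y := {{u | u = []}}) (Set.finite_singleton _) fun p v h => ?_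
  obtain ⟨rfl, rfl⟩ := List.append_eq_nil_iff.1 h
  exact ⟨_, rfl, rfl, fun v' hv' => hv'⟩

/-- all words `u v` with `v` in the language -/
def pre (u : List α) (K : Language α) : Language α := {x | ∃ v ∈ K, x = u ++ v}

/-- repetition of a word -/
def pw (z : List α) (n : ℕ) : List α := (List.replicate n z).flatten

theorem pw_zero (z : List α) : pw z 0 = [] := rfl

theorem pw_succ (z : List α) (n : ℕ) : pw z (n + 1) = z ++ pw z n := by
  unfold pw
  rw [List.replicate_succ, List.flatten_cons]

theorem pw_add (z : List α) (m n : ℕ) : pw z (m + n) = pw z m ++ pw z n := by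
  unfold pw
  rw [List.replicate_add, List.flatten_append]

theorem pw_mul (z : List α) (m n : ℕ) : pw z (n * m) = pw (pw z m) n := by
  induction n with
  | zero => rw [Nat.zero_mul]; rfl
  | succ n ih => rw [pw_succ, Nat.succ_mul, Nat.add_comm, pw_add, ih]

/-- all words `zⁿ v` with `v` in the language -/
def star (z : List α) (K : Language α) : Language α := {x | ∃ n, ∃ v ∈ K, x = pw z n ++ v}

theorem regular_pre (u : List α) {K : Language α} (hK : K.IsRegular) : (pre u K).IsRegular := by
  refine regular_of_family (Y := Set.range K.leftQuotient ∪ (fun u' => pre u' K) '' {u' | u' <:+ u})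
    (hK.finite_range_leftQuotient.union (Set.Finite.image _ ?_)) ?_
  · refine Set.Finite.subset (List.finite_toSet u.tails) fun x hx => ?_
    exact (List.mem_tails _ _).2 hx
  · rintro p v ⟨y, hy, he⟩
    rcases List.append_eq_append_iff.1 he with ⟨c, rfl, rfl⟩ | ⟨c, rfl, rfl⟩
    · refine ⟨pre c K, Or.inr ⟨c, ⟨p, rfl⟩, rfl⟩, ⟨y, hy, rfl⟩, ?_⟩
      rintro _ ⟨y', hy', rfl⟩
      exact ⟨y', hy', by rw [List.append_assoc]⟩
    · refine ⟨K.leftQuotient c, Or.inl ⟨c, rfl⟩, hy, fun v' hv' => ?_⟩
      exact ⟨c ++ v', hv', by rw [List.append_assoc]⟩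

theorem split_pw (z : List α) (n : ℕ) : ∀ p q : List α, p ++ q = pw z n →
    ∃ z' a b, z' <:+ z ∧ p ++ z' = pw z a ∧ q = z' ++ pw z b := by
  induction n with
  | zero =>
    intro p q h
    obtain ⟨rfl, rfl⟩ := List.append_eq_nil_iff.1 h
    exact ⟨[], 0, 0, List.nil_suffix, rfl, rfl⟩
  | succ n ih =>
    intro p q h
    rw [pw_succ] at h
    rcases List.append_eq_append_iff.1 h with ⟨c, h1, h2⟩ | ⟨c, h1, h2⟩
    · refine ⟨c, 1, n, ⟨p, h1.symm⟩, ?_, h2⟩
      rw [← h1, pw_succ, pw_zero, List.append_nil]
    · obtain ⟨z', a, b, h3, h4, h5⟩ := ih c q h2.symm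
      refine ⟨z', a + 1, b, h3, ?_, h5⟩
      rw [h1, List.append_assoc, h4, pw_succ]

theorem regular_star (z : List α) {K : Language α} (hK : K.IsRegular) : (star z K).IsRegular := by
  refine regular_of_family
    (Y := Set.range K.leftQuotient ∪ (fun u' => pre u' (star z K)) '' {u' | u' <:+ z})
    (hK.finite_range_leftQuotient.union (Set.Finite.image _ ?_)) ?_
  · refine Set.Finite.subset (List.finite_toSet z.tails) fun x hx => ?_
    exact (List.mem_tails _ _).2 hx
  · rintro p v ⟨n, y, hy, he⟩
    rcases List.append_eq_append_iff.1 he with ⟨c, h1, rfl⟩ | ⟨c, rfl, rfl⟩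
    · obtain ⟨z', a, b, h3, h4, rfl⟩ := split_pw z n p c h1.symm
      refine ⟨pre z' (star z K), Or.inr ⟨z', h3, rfl⟩,
        ⟨pw z b ++ y, ⟨b, y, hy, rfl⟩, by rw [List.append_assoc]⟩, ?_⟩
      rintro _ ⟨_, ⟨b', y', hy', rfl⟩, rfl⟩
      refine ⟨a + b', y', hy', ?_⟩
      rw [← List.append_assoc, h4, pw_add, List.append_assoc]
    · refine ⟨K.leftQuotient c, Or.inl ⟨c, rfl⟩, hy, fun v' hv' => ?_⟩
      exact ⟨n, c ++ v', hv', by rw [List.append_assoc]⟩

/-- union of languages -/
def unionL {ι : Type} (s : Set ι) (X : ι → Language α) : Language α := {u | ∃ x ∈ s, u ∈ X x}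

theorem regular_union {ι : Type} (s : Set ι) (hs : s.Finite) {X : ι → Language α}
    (h : ∀ x ∈ s, (X x).IsRegular) : (unionL s X).IsRegular := by
  induction s, hs using Set.Finite.induction_on with
  | empty =>
    have e : unionL (∅ : Set ι) X = ⊥ := by
      ext u
      constructor
      · rintro ⟨x, hx, _⟩
        exact absurd hx (Set.notMem_empty x)
      · intro hu
        exact absurd hu (fun h => h)
    rw [e]
    exact regular_empty
  | @insert a s _ _ ih =>
    have e : unionL (insert a s) X = X a + unionL s X := by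
      ext u
      rw [Language.mem_add]
      constructor
      · rintro ⟨x, hx, hu⟩
        rcases Set.mem_insert_iff.1 hx with rfl | hx
        · exact Or.inl hu
        · exact Or.inr ⟨x, hx, hu⟩
      · rintro (hu | ⟨x, hx, hu⟩)
        · exact ⟨a, Set.mem_insert _ _, hu⟩
        · exact ⟨x, Set.mem_insert_of_mem _ hx, hu⟩
    rw [e]
    exact (h a (Set.mem_insert _ _)).add (ih fun x hx => h x (Set.mem_insert_of_mem _ hx))

/-- the arithmetic progression of a reduced number -/
def AP (K D x : ℕ) : Set ℕ := {y | y = x ∨ K ≤ x ∧ ∃ t, y = x + t * D}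

theorem regular_box (K D : ℕ) {k : ℕ} : ∀ (w : Fin k → List α) (g : Fin k → ℕ),
    Language.IsRegular ({u | ∃ e : Fin k → ℕ, (∀ i, e i ∈ AP K D (g i)) ∧ u = word w e} :
      Language α) := by
  induction k with
  | zero =>
    intro w g
    have e : ({u | ∃ e : Fin 0 → ℕ, (∀ i, e i ∈ AP K D (g i)) ∧ u = word w e} : Language α) =
        {u | u = []} := by
      ext u
      constructor
      · rintro ⟨e, _, rfl⟩
        exact word_zero w e
      · rintro rfl
        exact ⟨fun i => i.elim0, fun i => i.elim0, (word_zero w _).symm⟩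
    rw [e]
    exact regular_nil
  | succ k ih =>
    intro w g
    have h := ih (fun i => w i.succ) (fun i => g i.succ)
    by_cases hg : K ≤ g 0
    · have e : ({u | ∃ e : Fin (k + 1) → ℕ, (∀ i, e i ∈ AP K D (g i)) ∧ u = word w e} :
          Language α) = pre (pw (w 0) (g 0)) (star (pw (w 0) D)
            {u | ∃ e : Fin k → ℕ, (∀ i, e i ∈ AP K D (g i.succ)) ∧
              u = word (fun i => w i.succ) e}) := by
        ext u
        constructor
        · rintro ⟨e, he, rfl⟩
          obtain ⟨t, ht⟩ : ∃ t, e 0 = g 0 + t * D := by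
            rcases he 0 with h0 | ⟨_, h0⟩
            · exact ⟨0, by rw [h0]; simp⟩
            · exact h0
          refine ⟨_, ⟨t, _, ⟨fun i => e i.succ, fun i => he i.succ, rfl⟩, rfl⟩, ?_⟩
          rw [word_succ, ← pw_mul, ← List.append_assoc, ← pw_add, ← ht]
          rfl
        · rintro ⟨_, ⟨t, _, ⟨e, he, rfl⟩, rfl⟩, rfl⟩
          refine ⟨Fin.cons (g 0 + t * D) e, ?_, ?_⟩
          · intro i
            refine Fin.cases ?_ (fun i => ?_) i
            · exact Or.inr ⟨hg, t, rfl⟩
            · exact he i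
          · rw [word_succ, ← pw_mul, ← List.append_assoc, ← pw_add]
            rfl
      rw [e]
      exact regular_pre _ (regular_star _ h)
    · have e : ({u | ∃ e : Fin (k + 1) → ℕ, (∀ i, e i ∈ AP K D (g i)) ∧ u = word w e} :
          Language α) = pre (pw (w 0) (g 0))
            {u | ∃ e : Fin k → ℕ, (∀ i, e i ∈ AP K D (g i.succ)) ∧
              u = word (fun i => w i.succ) e} := by
        ext u
        constructor
        · rintro ⟨e, he, rfl⟩
          have ht : e 0 = g 0 := by
            rcases he 0 with h0 | ⟨h0, _⟩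
            · exact h0
            · exact absurd h0 hg
          refine ⟨_, ⟨fun i => e i.succ, fun i => he i.succ, rfl⟩, ?_⟩
          rw [word_succ, ← ht]
          rfl
        · rintro ⟨_, ⟨e, he, rfl⟩, rfl⟩
          refine ⟨Fin.cons (g 0) e, ?_, ?_⟩
          · intro i
            refine Fin.cases ?_ (fun i => ?_) i
            · exact Or.inl rfl
            · exact he i
          · rw [word_succ]
            rfl
      rw [e]
      exact regular_pre _ h

theorem mem_iff_of_AP {k K D : ℕ} {V : Set (Fin k → ℕ)}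
    (h : ∀ m i, K ≤ m i → (m ∈ V ↔ update m i (m i + D) ∈ V)) {e g : Fin k → ℕ}
    (he : ∀ i, e i ∈ AP K D (g i)) : e ∈ V ↔ g ∈ V := by
  classical
  have key : ∀ s : Finset (Fin k), s.piecewise e g ∈ V ↔ g ∈ V := by
    intro s
    induction s using Finset.induction_on with
    | empty => rw [Finset.piecewise_empty]
    | insert a s ha ih =>
      rw [Finset.piecewise_insert, ← ih]
      have hga : s.piecewise e g a = g a := Finset.piecewise_eq_of_notMem _ _ _ ha
      rcases he a with h0 | ⟨h0, t, h1⟩
      · have e1 : update (s.piecewise e g) a (e a) = s.piecewise e g := by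
          rw [h0, ← hga, update_eq_self]
        rw [e1]
      · rw [UP.mul h t (s.piecewise e g) a (by rw [hga]; exact h0), hga, h1]
  have := key Finset.univ
  rwa [Finset.piecewise_univ] at this

theorem regular_of_UP {k : ℕ} (w : Fin k → List α) {V : Set (Fin k → ℕ)} (hV : UP V) :
    Language.IsRegular ({u | ∃ e ∈ V, u = word w e} : Language α) := by
  obtain ⟨K, D, hD, h⟩ := hV
  have e : ({u | ∃ e ∈ V, u = word w e} : Language α) =
      unionL {g : Fin k → ℕ | g ∈ V ∧ ∀ i, g i < K + D}
        fun g => {u | ∃ e : Fin k → ℕ, (∀ i, e i ∈ AP K D (g i)) ∧ u = word w e} := by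
    ext u
    constructor
    · rintro ⟨e, he, rfl⟩
      obtain ⟨g, hg⟩ : ∃ g : Fin k → ℕ, g = fun i => if e i < K then e i else K + (e i - K) % D :=
        ⟨_, rfl⟩
      have h1 : ∀ i, e i ∈ AP K D (g i) := by
        intro i
        rw [hg]
        simp only
        split_ifs with h2
        · exact Or.inl rfl
        · refine Or.inr ⟨by omega, (e i - K) / D, ?_⟩
          have := Nat.mod_add_div (e i - K) D
          rw [Nat.mul_comm] at this
          omega
      refine ⟨g, ⟨(mem_iff_of_AP h h1).1 he, fun i => ?_⟩, e, h1, rfl⟩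
      rw [hg]
      simp only
      have := Nat.mod_lt (e i - K) hD
      split_ifs <;> omega
    · rintro ⟨g, ⟨hg, _⟩, e, he, rfl⟩
      exact ⟨e, (mem_iff_of_AP h he).2 hg, rfl⟩
  rw [e]
  refine regular_union _ ?_ fun g _ => regular_box K D w g
  refine Set.Finite.subset (Set.Finite.pi' fun _ : Fin k => Set.finite_Iio (K + D)) ?_
  rintro g ⟨_, hg⟩ i
  exact hg i

end Pool.Agent.V8H44.RC
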