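import Pool.Agent.R679.Tr1

/-!
Transducers given by finitely many rules that read and write words.
-/

set_option autoImplicit false

namespace Pool.Agent.V8H44.RC

open Pool.Agent.R679.Tr

variable {α β σ : Type}

/-- a sequence of rules -/
inductive Run (R : σ → List α → List β → σ → Prop) : σ → List α → List β → σ → Prop
  | nil (p : σ) : Run R p [] [] p
  | cons {p p' q : σ} {x u : List α} {y v : List β} :
      R p x y p' → Run R p' u v q → Run R p (x ++ u) (y ++ v) q

/-- the transducer of a system of rules with words of bounded lengths -/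
def WT [Finite σ] [Finite α] [Finite β] (N : ℕ) (R : σ → List α → List β → σ → Prop)
    (start final : σ → Prop) : Transducer α β where
  σ := σ × {x : List α // x.length ≤ N} × {y : List β // y.length ≤ N}
  fin := by
    have h1 : Finite {x : List α // x.length ≤ N} := List.finite_length_le α N
    have h2 : Finite {y : List β // y.length ≤ N} := List.finite_length_le β N
    infer_instance
  trans p a b q :=
    -- read
    (∃ l, a = some l ∧ b = none ∧ p.1 = q.1 ∧ p.2.1.val = l :: q.2.1.val ∧ p.2.2 = q.2.2) ∨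
    -- write
    (∃ l, a = none ∧ b = some l ∧ p.1 = q.1 ∧ p.2.1 = q.2.1 ∧ p.2.2.val = l :: q.2.2.val) ∨
    -- choose a rule
    (a = none ∧ b = none ∧ p.2.1.val = [] ∧ p.2.2.val = [] ∧ R p.1 q.2.1.val q.2.2.val q.1)
  start p := start p.1 ∧ p.2.1.val = [] ∧ p.2.2.val = []
  final p := final p.1 ∧ p.2.1.val = [] ∧ p.2.2.val = []

section

variable [Finite σ] [Finite α] [Finite β] {N : ℕ} {R : σ → List α → List β → σ → Prop}
  {start final : σ → Prop}

theorem WT_sound {p q : (WT N R start final).σ} {u : List α} {v : List β}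
    (h : Path (WT N R start final) p u v q) : q.2.1.val = [] → q.2.2.val = [] →
    ∃ u' v', u = p.2.1.val ++ u' ∧ v = p.2.2.val ++ v' ∧ Run R p.1 u' v' q.1 := by
  induction h with
  | nil p =>
    intro h1 h2
    exact ⟨[], [], by rw [h1]; rfl, by rw [h2]; rfl, Run.nil _⟩
  | @cons p p' q a b u v ht _ ih =>
    intro h1 h2
    obtain ⟨u', v', rfl, rfl, hr⟩ := ih h1 h2
    rcases ht with ⟨l, rfl, rfl, e1, e2, e3⟩ | ⟨l, rfl, rfl, e1, e2, e3⟩ | ⟨rfl, rfl, e1, e2, e3⟩
    · refine ⟨u', v', ?_, ?_, ?_⟩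
      · rw [e2]; rfl
      · rw [e3]; rfl
      · rw [e1]; exact hr
    · refine ⟨u', v', ?_, ?_, ?_⟩
      · rw [e2]; rfl
      · rw [e3]; rfl
      · rw [e1]; exact hr
    · refine ⟨_, _, ?_, ?_, Run.cons e3 hr⟩
      · rw [e1]; rfl
      · rw [e2]; rfl

theorem WT_read (p : σ) (y : {y : List β // y.length ≤ N}) : ∀ (x : List α) (hx : x.length ≤ N),
    Path (WT N R start final) (p, ⟨x, hx⟩, y) x [] (p, ⟨[], Nat.zero_le N⟩, y) := by
  intro x
  induction x with
  | nil => intro hx; exact Path.nil (T := WT N R start final) _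
  | cons l x ih =>
    intro hx
    have hx' : x.length ≤ N := by
      rw [List.length_cons] at hx
      omega
    have ht : (WT N R start final).trans (p, ⟨l :: x, hx⟩, y) (some l) none (p, ⟨x, hx'⟩, y) :=
      Or.inl ⟨l, rfl, rfl, rfl, rfl, rfl⟩
    exact Path.cons (T := WT N R start final) ht (ih hx')

theorem WT_write (p : σ) (x : {x : List α // x.length ≤ N}) : ∀ (y : List β) (hy : y.length ≤ N),
    Path (WT N R start final) (p, x, ⟨y, hy⟩) [] y (p, x, ⟨[], Nat.zero_le N⟩) := by
  intro y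
  induction y with
  | nil => intro hy; exact Path.nil (T := WT N R start final) _
  | cons l y ih =>
    intro hy
    have hy' : y.length ≤ N := by
      rw [List.length_cons] at hy
      omega
    have ht : (WT N R start final).trans (p, x, ⟨l :: y, hy⟩) none (some l) (p, x, ⟨y, hy'⟩) :=
      Or.inr (Or.inl ⟨l, rfl, rfl, rfl, rfl, rfl⟩)
    exact Path.cons (T := WT N R start final) ht (ih hy')

theorem WT_complete (hN : ∀ p x y q, R p x y q → x.length ≤ N ∧ y.length ≤ N) {p q : σ}
    {u : List α} {v : List β} (h : Run R p u v q) :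
    Path (WT N R start final) (p, ⟨[], Nat.zero_le N⟩, ⟨[], Nat.zero_le N⟩) u v
      (q, ⟨[], Nat.zero_le N⟩, ⟨[], Nat.zero_le N⟩) := by
  induction h with
  | nil p => exact Path.nil (T := WT N R start final) _
  | @cons p p' q x u y v hr _ ih =>
    obtain ⟨hx, hy⟩ := hN _ _ _ _ hr
    have ht : (WT N R start final).trans (p, ⟨[], Nat.zero_le N⟩, ⟨[], Nat.zero_le N⟩) none none
        (p', ⟨x, hx⟩, ⟨y, hy⟩) := Or.inr (Or.inr ⟨rfl, rfl, rfl, rfl, hr⟩)
    have h1 := WT_read (R := R) (start := start) (final := final) p' ⟨y, hy⟩ x hx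
    have h2 := WT_write (R := R) (start := start) (final := final) p' ⟨[], Nat.zero_le N⟩ y hy
    have h3 := (Path.cons (T := WT N R start final) ht ((h1.append h2).append ih))
    simpa using h3

theorem WT_rel (hN : ∀ p x y q, R p x y q → x.length ≤ N ∧ y.length ≤ N) (u : List α)
    (v : List β) : (WT N R start final).rel u v ↔ ∃ p q, start p ∧ final q ∧ Run R p u v q := by
  constructor
  · rintro ⟨p, q, ⟨h1, h2, h3⟩, ⟨h4, h5, h6⟩, hp⟩
    obtain ⟨u', v', e1, e2, hr⟩ := WT_sound hp h5 h6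
    rw [h2, List.nil_append] at e1
    rw [h3, List.nil_append] at e2
    subst e1 e2
    exact ⟨p.1, q.1, h1, h4, hr⟩
  · rintro ⟨p, q, h1, h2, hr⟩
    exact ⟨(p, ⟨[], Nat.zero_le N⟩, ⟨[], Nat.zero_le N⟩), (q, ⟨[], Nat.zero_le N⟩,
      ⟨[], Nat.zero_le N⟩), ⟨h1, rfl, rfl⟩, ⟨h2, rfl, rfl⟩, WT_complete hN hr⟩

end

end Pool.Agent.V8H44.RC
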