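import Pool.Agent.V8H44.RC.Dich
import Pool.Agent.V8H44.RC.RegC
import Pool.Agent.V8H44.RC.WT

/-!
The rational cone of the unary language of `Sx` is minimal with respect to bounded languages.
-/

set_option autoImplicit false

namespace Pool.Agent.V8H44.RC

open Set Nat Function Pool.Agent.R679.Tr

theorem unary (v : List (Fin 1)) : v = List.replicate v.length 0 :=
  List.eq_replicate_of_mem fun b _ => Fin.eq_zero b

theorem unary_eq {u v : List (Fin 1)} (h : u.length = v.length) : u = v := by
  rw [unary u, unary v, h]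

section

variable {n : ℕ}

/-- the rules of the transducer that recovers the unary language -/
def RR (A z B : List (Fin n)) (s1 β : ℕ) (p : Fin 4) (x : List (Fin n)) (y : List (Fin 1))
    (q : Fin 4) : Prop :=
  (p = 0 ∧ q = 1 ∧ x = A ∧ y.length = s1) ∨ (p = 1 ∧ q = 1 ∧ x = z ∧ y.length = β) ∨
  (p = 1 ∧ q = 2 ∧ x = B ∧ y.length = 0) ∨ (p = 3 ∧ q = 3 ∧ x.length = 1 ∧ y.length = 0) ∨
  (p = 3 ∧ q = 2 ∧ x = [] ∧ y.length < s1 ∧ y.length ∈ Sx)

/-- the words from which the final state can be reached -/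
def Inv (A z B : List (Fin n)) (s1 β : ℕ) (p : Fin 4) (u : List (Fin n)) (v : List (Fin 1)) :
    Prop :=
  (p = 0 → ∃ t, u = A ++ (pw z t ++ B) ∧ v.length = s1 + β * t) ∧
  (p = 1 → ∃ t, u = pw z t ++ B ∧ v.length = β * t) ∧
  (p = 2 → u = [] ∧ v = []) ∧
  (p = 3 → v.length < s1 ∧ v.length ∈ Sx)

theorem Inv_of {A z B : List (Fin n)} {s1 β : ℕ} {p q : Fin 4} {u : List (Fin n)}
    {v : List (Fin 1)} (h : Run (RR A z B s1 β) p u v q) : q = 2 → Inv A z B s1 β p u v := by
  induction h with
  | nil p =>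
    rintro rfl
    refine ⟨fun h => absurd h (by decide), fun h => absurd h (by decide), fun _ => ⟨rfl, rfl⟩,
      fun h => absurd h (by decide)⟩
  | @cons p p' q x u y v hr _ ih =>
    intro hq
    obtain ⟨i0, i1, i2, i3⟩ := ih hq
    rcases hr with ⟨rfl, rfl, rfl, h⟩ | ⟨rfl, rfl, rfl, h⟩ | ⟨rfl, rfl, rfl, h⟩ |
      ⟨rfl, rfl, h', h⟩ | ⟨rfl, rfl, rfl, h, h'⟩
    · refine ⟨fun _ => ?_, fun h => absurd h (by decide), fun h => absurd h (by decide),
        fun h => absurd h (by decide)⟩
      obtain ⟨t, rfl, ht⟩ := i1 rfl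
      exact ⟨t, rfl, by rw [List.length_append, h, ht]⟩
    · refine ⟨fun h => absurd h (by decide), fun _ => ?_, fun h => absurd h (by decide),
        fun h => absurd h (by decide)⟩
      obtain ⟨t, rfl, ht⟩ := i1 rfl
      refine ⟨t + 1, ?_, ?_⟩
      · rw [pw_succ, List.append_assoc]
      · rw [List.length_append, h, ht]; ring
    · refine ⟨fun h => absurd h (by decide), fun _ => ?_, fun h => absurd h (by decide),
        fun h => absurd h (by decide)⟩
      obtain ⟨rfl, rfl⟩ := i2 rfl
      refine ⟨0, ?_, ?_⟩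
      · rw [pw_zero, List.append_nil, List.nil_append]
      · rw [List.append_nil, h, Nat.mul_zero]
    · refine ⟨fun h => absurd h (by decide), fun h => absurd h (by decide),
        fun h => absurd h (by decide), fun _ => ?_⟩
      have h1 := i3 rfl
      rw [List.length_append, h, Nat.zero_add]
      exact h1
    · refine ⟨fun h => absurd h (by decide), fun h => absurd h (by decide),
        fun h => absurd h (by decide), fun _ => ?_⟩
      obtain ⟨_, rfl⟩ := i2 rfl
      rw [List.append_nil]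
      exact ⟨h, h'⟩

theorem run_loop {A z B : List (Fin n)} {s1 β : ℕ} (t : ℕ) :
    Run (RR A z B s1 β) 1 (pw z t ++ B) (List.replicate (β * t) 0) 2 := by
  induction t with
  | zero =>
    have h := Run.cons (R := RR A z B s1 β) (p := 1) (p' := 2) (q := 2) (x := B) (y := [])
      (u := []) (v := []) (Or.inr (Or.inr (Or.inl ⟨rfl, rfl, rfl, rfl⟩))) (Run.nil 2)
    rw [List.append_nil] at h
    exact h
  | succ t ih =>
    have h := Run.cons (R := RR A z B s1 β) (p := 1) (x := z) (y := List.replicate β 0)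
      (Or.inr (Or.inl ⟨rfl, rfl, rfl, List.length_replicate⟩)) ih
    have e : List.replicate (β * (t + 1)) (0 : Fin 1) =
        List.replicate β 0 ++ List.replicate (β * t) 0 := by
      rw [← List.replicate_add]
      congr 1
      ring
    rw [e, pw_succ, List.append_assoc]
    exact h

theorem run_any {A z B : List (Fin n)} {s1 β : ℕ} {v : List (Fin 1)} (h1 : v.length < s1)
    (h2 : v.length ∈ Sx) (x : List (Fin n)) : Run (RR A z B s1 β) 3 x v 2 := by
  induction x with
  | nil =>
    have h := Run.cons (R := RR A z B s1 β) (p := 3) (p' := 2) (q := 2) (x := []) (y := v)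
      (u := []) (v := []) (Or.inr (Or.inr (Or.inr (Or.inr ⟨rfl, rfl, rfl, h1, h2⟩)))) (Run.nil 2)
    rw [List.append_nil v] at h
    exact h
  | cons l x ih =>
    have h := Run.cons (R := RR A z B s1 β) (p := 3) (p' := 3) (q := 2) (x := [l]) (y := [])
      (u := x) (v := v) (Or.inr (Or.inr (Or.inr (Or.inl ⟨rfl, rfl, rfl, rfl⟩)))) ih
    exact h

end

theorem word_split {α : Type} {k : ℕ} (w : Fin k → List α) (m : Fin k → ℕ) (i : Fin k) :
    ∃ A B, ∀ t, word w (update m i t) = A ++ (pw (w i) t ++ B) := by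
  induction k with
  | zero => exact i.elim0
  | succ k ih =>
    refine Fin.cases ?_ (fun i => ?_) i
    · refine ⟨[], word (fun i => w i.succ) (fun i => m i.succ), fun t => ?_⟩
      rw [word_succ, update_self, List.nil_append]
      congr 2
    · obtain ⟨A, B, h⟩ := ih (fun i => w i.succ) (fun i => m i.succ) i
      refine ⟨pw (w 0) (m 0) ++ A, B, fun t => ?_⟩
      have e1 : (fun j : Fin k => update m i.succ t j.succ) = update (fun j => m j.succ) i t := by
        funext j
        by_cases hj : j = i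
        · subst hj
          rw [update_self, update_self]
        · rw [update_of_ne hj, update_of_ne fun h => hj (Fin.succ_injective _ h)]
      rw [word_succ, e1, h, update_of_ne (Fin.succ_ne_zero i).symm, List.append_assoc]
      rfl

theorem mem_gen_of_recov {n k : ℕ} {L : Language (Fin n)} {w : Fin k → List (Fin n)}
    {V : Set (Fin k → ℕ)} (hV : ∀ e, word w e ∈ L ↔ e ∈ V) (h : Recov V) :
    LS Sx ∈ gen L 1 := by
  obtain ⟨m, i, D, β, s1, _, h⟩ := h
  obtain ⟨A0, B, hw⟩ := word_split w m i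
  obtain ⟨A, hA⟩ : ∃ A, A = A0 ++ pw (w i) (m i) := ⟨_, rfl⟩
  obtain ⟨z, hz⟩ : ∃ z, z = pw (w i) D := ⟨_, rfl⟩
  have hw' : ∀ u, word w (update m i (m i + u * D)) = A ++ (pw z u ++ B) := by
    intro u
    rw [hw, hA, hz, pw_add, pw_mul, List.append_assoc, List.append_assoc]
  rw [mem_gen_iff]
  obtain ⟨N, hN⟩ : ∃ N, N = A.length + z.length + B.length + 1 + s1 + β := ⟨_, rfl⟩
  have hb : ∀ p x y q, RR A z B s1 β p x y q → x.length ≤ N ∧ y.length ≤ N := by
    intro p x y q hr
    rcases hr with ⟨rfl, rfl, rfl, h⟩ | ⟨rfl, rfl, rfl, h⟩ | ⟨rfl, rfl, rfl, h⟩ |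
      ⟨rfl, rfl, h', h⟩ | ⟨rfl, rfl, rfl, h, h'⟩
    · omega
    · omega
    · omega
    · omega
    · rw [List.length_nil]
      omega
  refine ⟨WT N (RR A z B s1 β) (fun p => p = 0 ∨ p = 3) (fun q => q = 2), ?_⟩
  ext v
  constructor
  · intro hv
    have hv' : v.length ∈ Sx := hv
    by_cases hs : s1 ≤ v.length
    · obtain ⟨t, ht, hmem⟩ := (h _ hs).1 hv'
      refine ⟨A ++ (pw z t ++ B), ?_, ?_⟩
      · rw [← hw' t]
        exact (hV _).2 hmem
      · rw [WT_rel hb]
        refine ⟨0, 2, Or.inl rfl, rfl, ?_⟩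
        have e : v = List.replicate s1 0 ++ List.replicate (β * t) 0 := by
          apply unary_eq
          rw [ht, List.length_append, List.length_replicate, List.length_replicate]
        rw [e]
        exact Run.cons (R := RR A z B s1 β) (p := 0) (p' := 1)
          (Or.inl ⟨rfl, rfl, rfl, List.length_replicate⟩) (run_loop t)
    · -- some word of the language
      obtain ⟨s', hs', hle⟩ := unbounded s1
      obtain ⟨t, _, hmem⟩ := (h s' hle).1 hs'
      refine ⟨word w (update m i (m i + t * D)), (hV _).2 hmem, ?_⟩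
      rw [WT_rel hb]
      exact ⟨3, 2, Or.inr rfl, rfl, run_any (by omega) hv' _⟩
  · rintro ⟨x, hx, hr⟩
    change v.length ∈ Sx
    rw [WT_rel hb] at hr
    obtain ⟨p, q, hp, rfl, hrun⟩ := hr
    have hI := Inv_of hrun rfl
    rcases hp with rfl | rfl
    · obtain ⟨t, rfl, ht⟩ := hI.1 rfl
      rw [← hw' t, hV] at hx
      exact (h _ (by rw [ht]; omega)).2 ⟨t, ht, hx⟩
    · exact (hI.2.2.2 rfl).2

theorem not_regular : ¬ (LS Sx).IsRegular := by
  intro hreg
  have hfin := hreg.finite_range_leftQuotient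
  obtain ⟨a, b, hab, heq⟩ : ∃ a b : ℕ, a < b ∧
      (LS Sx).leftQuotient (List.replicate a 0) = (LS Sx).leftQuotient (List.replicate b 0) := by
    obtain ⟨a, _, b, _, hne, heq⟩ := Set.infinite_univ.exists_ne_map_eq_of_mapsTo
      (f := fun j : ℕ => (LS Sx).leftQuotient (List.replicate j 0))
      (fun j _ => Set.mem_range_self (List.replicate j (0 : Fin 1))) hfin
    rcases lt_or_gt_of_ne hne with h | h
    · exact ⟨a, b, h, heq⟩
    · exact ⟨b, a, h, heq.symm⟩
  have key : ∀ s, a + s ∈ Sx → b + s ∈ Sx := by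
    intro s hs
    have h1 : List.replicate s (0 : Fin 1) ∈ (LS Sx).leftQuotient (List.replicate a 0) := by
      change (List.replicate a (0 : Fin 1) ++ List.replicate s 0).length ∈ Sx
      rwa [List.length_append, List.length_replicate, List.length_replicate]
    rw [heq] at h1
    change (List.replicate b (0 : Fin 1) ++ List.replicate s 0).length ∈ Sx at h1
    rwa [List.length_append, List.length_replicate, List.length_replicate] at h1
  obtain ⟨d, rfl⟩ : ∃ d, b = a + d := ⟨b - a, by omega⟩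
  obtain ⟨s', hs', hle⟩ := unbounded (a + ((2 * d)!) ^ 2)
  obtain ⟨s, rfl⟩ : ∃ s, s' = a + s := ⟨s' - a, by omega⟩
  have h2 := key s hs'
  have h3 := cls (W := 2 * d) (by omega) hs' (by omega)
  have h4 := cls (W := 2 * d) (by omega) h2 (by omega)
  have h5 : a + s ≡ a + s + d [MOD 2 * d] := by
    have e : a + d + s = a + s + d := by omega
    rw [e] at h4
    exact h3.trans h4.symm
  have h6 := (Nat.modEq_iff_dvd' (by omega)).1 h5
  have h7 : a + s + d - (a + s) = d := by omega
  rw [h7] at h6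
  have := Nat.le_of_dvd (by omega) h6
  omega

theorem bounded_LS (S : Set ℕ) : BoundedDeg 1 (LS S) := by
  refine ⟨fun _ => [0], fun u _ => ⟨fun _ => u.length, ?_⟩⟩
  apply unary_eq
  simp

theorem isCone_gen {n : ℕ} (L : Language (Fin n)) : IsCone (gen L) :=
  fun n' m T K hK C hC hL => hC n' m T K (hK C hC hL)

theorem self_mem_gen {n : ℕ} (L : Language (Fin n)) : L ∈ gen L n := fun _ _ hL => hL

theorem gen_eq {n m : ℕ} {L : Language (Fin n)} {K : Language (Fin m)} (h : L ∈ gen K n)
    (h' : K ∈ gen L m) : gen L = gen K := by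
  funext j
  ext M
  constructor
  · intro hM C hC hK
    exact hM C hC (h C hC hK)
  · intro hM C hC hL
    exact hM C hC (h' C hC hL)

theorem minimal {k : ℕ} (hk : 1 ≤ k) : MinimalWrt k (gen (LS Sx)) := by
  intro n L hL hbd
  obtain ⟨k, rfl⟩ : ∃ k', k = k' + 1 := ⟨k - 1, by omega⟩
  obtain ⟨w, hw⟩ := hbd
  obtain ⟨T, rfl⟩ := (mem_gen_iff _ _).1 hL
  obtain ⟨C, hC, hV⟩ := exists_comps T w Sx
  by_cases hrec : Recov (VS C Sx)
  · exact Or.inr (gen_eq hL (mem_gen_of_recov hV hrec))
  · left
    have h := regular_of_UP w (dichotomy hC hrec)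
    have e : T.image (LS Sx) = ({u | ∃ e ∈ VS C Sx, u = word w e} : Language (Fin n)) := by
      ext u
      constructor
      · intro hu
        obtain ⟨e, rfl⟩ := hw u hu
        exact ⟨e, (hV e).1 hu, rfl⟩
      · rintro ⟨e, he, rfl⟩
        exact (hV e).2 he
    rw [e]
    exact h

end Pool.Agent.V8H44.RC
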