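import Pool.Agent.R679.Tr1
import Pool.Agent.V8H44.RC.Klee

/-!
The paths of a transducer that read a power of the only input letter and write a power of a given
word: the set of the pairs of exponents is semilinear.
-/

set_option autoImplicit false

namespace Pool.Agent.V8H44.RC

open Set Pointwise AddSubmonoid Pool.Agent.R679.Tr

variable {β : Type}

theorem eq_rep (u : List (Fin 1)) : u = List.replicate u.length 0 := by
  rw [List.eq_replicate_iff]
  exact ⟨rfl, fun b _ => Subsingleton.elim _ _⟩

/-- lengths of the inputs of the paths that write `x` -/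
def PS (T : Transducer (Fin 1) β) (p : T.σ) (x : List β) (q : T.σ) : Set ℕ :=
  {s | Path T p (List.replicate s 0) x q}

variable {T : Transducer (Fin 1) β}

theorem PS_of {p q : T.σ} {u : List (Fin 1)} {x : List β} (h : Path T p u x q) :
    u.length ∈ PS T p x q := by
  change Path T p (List.replicate u.length 0) x q
  rw [← eq_rep]
  exact h

theorem PS_append {p r q : T.σ} {x y : List β} {s t : ℕ} (h : s ∈ PS T p x r)
    (h' : t ∈ PS T r y q) : s + t ∈ PS T p (x ++ y) q := by
  change Path T p (List.replicate (s + t) 0) (x ++ y) q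
  rw [List.replicate_add]
  exact Path.append h h'

theorem PS_split {p q : T.σ} {x y : List β} {s : ℕ} (h : s ∈ PS T p (x ++ y) q) :
    ∃ r a b, s = a + b ∧ a ∈ PS T p x r ∧ b ∈ PS T r y q := by
  obtain ⟨r, u1, u2, h1, h2, h3⟩ := Path.split_out h rfl
  refine ⟨r, u1.length, u2.length, ?_, PS_of h2, PS_of h3⟩
  have := congrArg List.length h1
  simpa using this

theorem PS_zero (p : T.σ) : 0 ∈ PS T p [] p := Path.nil p

/-- labels of the transitions that write nothing -/
def X0 (T : Transducer (Fin 1) β) (p q : T.σ) : Set ℕ :=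
  {s | (s = 0 ∧ T.trans p none none q) ∨ (s = 1 ∧ T.trans p (some 0) none q)}

theorem PS_nil_eq (p q : T.σ) : PS T p [] q = {s | Walk (X0 T) p q s} := by
  ext s
  constructor
  · intro h
    have key : ∀ {p q : T.σ} {u : List (Fin 1)} {x : List β}, Path T p u x q → x = [] →
        Walk (X0 T) p q u.length := by
      intro p q u x h
      induction h with
      | nil p => intro _; exact Walk.nil p
      | @cons p p' q x y u v ht _ ih =>
        intro hx
        obtain ⟨h1, h2⟩ := List.append_eq_nil_iff.1 hx
        have hy : y = none := by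
          cases y with
          | none => rfl
          | some y => simp at h1
        subst hy
        rw [List.length_append]
        refine Walk.cons ?_ (ih h2)
        cases x with
        | none => exact Or.inl ⟨rfl, ht⟩
        | some x =>
          obtain rfl : x = 0 := Subsingleton.elim _ _
          exact Or.inr ⟨rfl, ht⟩
    have := key h rfl
    simpa using this
  · intro h
    change Walk (X0 T) p q s at h
    induction h with
    | nil p => exact PS_zero p
    | @cons p r q x y hx _ ih =>
      have h1 : x ∈ PS T p [] r := by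
        rcases hx with ⟨rfl, ht⟩ | ⟨rfl, ht⟩
        · exact Path.cons (x := none) (y := none) ht (Path.nil r)
        · exact Path.cons (x := some 0) (y := none) ht (Path.nil r)
      exact PS_append h1 ih

theorem semilinear_PS_nil (p q : T.σ) : IsSemilinearSet (PS T p [] q) := by
  have := T.fin
  rw [PS_nil_eq]
  refine semilinear_Walk (fun p q => IsSemilinearSet.of_finite ?_) p q
  refine (Set.toFinite {0, 1}).subset ?_
  rintro s (⟨rfl, _⟩ | ⟨rfl, _⟩) <;> simp

/-- labels of the transitions that write `a` -/
def X1 (T : Transducer (Fin 1) β) (a : β) (p q : T.σ) : Set ℕ :=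
  {s | (s = 0 ∧ T.trans p none (some a) q) ∨ (s = 1 ∧ T.trans p (some 0) (some a) q)}

theorem PS_cons_eq (a : β) (x : List β) (p q : T.σ) :
    PS T p (a :: x) q = ⋃ r, ⋃ r', (PS T p [] r + X1 T a r r') + PS T r' x q := by
  ext s
  simp only [mem_iUnion, mem_add]
  constructor
  · intro h
    obtain ⟨p', p'', v1, y, v2, hv, h1, h2, h3⟩ :=
      Path.uncons_in (Path.swap h) (l := a) (u := x) rfl
    have e : s = v1.length + (Option.toList y).length + v2.length := by
      have := congrArg List.length hv
      simp only [List.length_replicate, List.length_append] at this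
      omega
    refine ⟨p', p'', v1.length + (Option.toList y).length, ⟨v1.length, PS_of h1.unswap,
      (Option.toList y).length, ?_, rfl⟩, v2.length, PS_of h3.unswap, e.symm⟩
    cases y with
    | none => exact Or.inl ⟨rfl, h2⟩
    | some y =>
      obtain rfl : y = 0 := Subsingleton.elim _ _
      exact Or.inr ⟨rfl, h2⟩
  · rintro ⟨r, r', _, ⟨a1, h1, b1, h2, rfl⟩, c, h3, rfl⟩
    have h4 : b1 ∈ PS T r [a] r' := by
      rcases h2 with ⟨rfl, ht⟩ | ⟨rfl, ht⟩
      · exact Path.cons (x := none) (y := some a) ht (Path.nil r')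
      · exact Path.cons (x := some 0) (y := some a) ht (Path.nil r')
    exact PS_append (PS_append h1 h4) h3

theorem semilinear_PS (x : List β) : ∀ p q : T.σ, IsSemilinearSet (PS T p x q) := by
  have := T.fin
  induction x with
  | nil => exact fun p q => semilinear_PS_nil p q
  | cons a x ih =>
    intro p q
    rw [PS_cons_eq]
    refine IsSemilinearSet.iUnion fun r => IsSemilinearSet.iUnion fun r' => ?_
    refine ((semilinear_PS_nil p r).add (IsSemilinearSet.of_finite ?_)).add (ih r' q)
    refine (Set.toFinite {0, 1}).subset ?_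
    rintro s (⟨rfl, _⟩ | ⟨rfl, _⟩) <;> simp

/-- pairs (length of the input, exponent of the word `w` in the output) -/
def BQ (T : Transducer (Fin 1) β) (w : List β) (p q : T.σ) : Set (ℕ × ℕ) :=
  {x | x.1 ∈ PS T p (List.replicate x.2 w).flatten q}

theorem BQ_eq (w : List β) (p q : T.σ) :
    BQ T w p q = ⋃ r, (AddMonoidHom.inl ℕ ℕ '' PS T p [] r) +
      {x | Walk (fun p q => (AddMonoidHom.inl ℕ ℕ '' PS T p w q) + {(0, 1)}) r q x} := by
  ext ⟨s, m⟩
  simp only [mem_iUnion, mem_add]
  constructor
  · intro h
    have key : ∀ (m : ℕ) (p : T.σ) (s : ℕ), s ∈ PS T p (List.replicate m w).flatten q →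
        ∃ r a b, s = a + b ∧ a ∈ PS T p [] r ∧
          Walk (fun p q => (AddMonoidHom.inl ℕ ℕ '' PS T p w q) + {(0, 1)}) r q (b, m) := by
      intro m
      induction m with
      | zero =>
        intro p s h
        exact ⟨q, s, 0, rfl, h, Walk.nil q⟩
      | succ m ih =>
        intro p s h
        rw [List.replicate_succ, List.flatten_cons] at h
        obtain ⟨r', a1, b1, rfl, h1, h2⟩ := PS_split h
        obtain ⟨r, a, b, rfl, h3, h4⟩ := ih r' b1 h2
        refine ⟨p, 0, a1 + a + b, by omega, PS_zero p, ?_⟩
        have h5 : a1 + a ∈ PS T p w r := by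
          have := PS_append h1 h3
          rwa [List.append_nil] at this
        have h6 : (a1 + a, 1) ∈ (AddMonoidHom.inl ℕ ℕ '' PS T p w r) + {((0 : ℕ), (1 : ℕ))} := by
          rw [mem_add]
          exact ⟨(a1 + a, 0), ⟨a1 + a, h5, rfl⟩, (0, 1), rfl, by simp⟩
        have h7 := Walk.cons (X := fun p q => (AddMonoidHom.inl ℕ ℕ '' PS T p w q) + {(0, 1)})
          h6 h4
        have e : ((a1 + a, 1) : ℕ × ℕ) + (b, m) = (a1 + a + b, m + 1) := by
          rw [Prod.mk_add_mk, Nat.add_comm 1 m]
        rwa [e] at h7
    obtain ⟨r, a, b, rfl, h1, h2⟩ := key m p s h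
    exact ⟨r, (a, 0), ⟨a, h1, rfl⟩, (b, m), h2, by simp⟩
  · rintro ⟨r, _, ⟨a, h1, rfl⟩, ⟨b, m'⟩, h2, he⟩
    have key : ∀ {r q : T.σ} {x : ℕ × ℕ},
        Walk (fun p q => (AddMonoidHom.inl ℕ ℕ '' PS T p w q) + {(0, 1)}) r q x →
        x.1 ∈ PS T r (List.replicate x.2 w).flatten q := by
      intro r q x h
      induction h with
      | nil p => exact PS_zero p
      | @cons p r q x y hx _ ih =>
        rw [mem_add] at hx
        obtain ⟨_, ⟨c, hc, rfl⟩, z, hz, rfl⟩ := hx
        obtain rfl : z = (0, 1) := hz
        have e1 : ((AddMonoidHom.inl ℕ ℕ) c + (0, 1) + y).1 = c + y.1 := by simp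
        have e2 : ((AddMonoidHom.inl ℕ ℕ) c + (0, 1) + y).2 = y.2 + 1 := by
          simp [Nat.add_comm]
        rw [e1, e2, List.replicate_succ, List.flatten_cons]
        exact PS_append hc ih
    have h3 := PS_append h1 (key h2)
    have e1 : s = a + b := by
      have := congrArg Prod.fst he
      simpa using this.symm
    have e2 : m = m' := by
      have := congrArg Prod.snd he
      simpa using this.symm
    subst e1 e2
    exact h3

theorem semilinear_BQ (w : List β) (p q : T.σ) : IsSemilinearSet (BQ T w p q) := by
  have := T.fin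
  rw [BQ_eq]
  refine IsSemilinearSet.iUnion fun r => ?_
  refine ((semilinear_PS [] p r).image _).add (semilinear_Walk (fun p q => ?_) r q)
  exact ((semilinear_PS w p q).image _).add (IsSemilinearSet.singleton _)

end Pool.Agent.V8H44.RC
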