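import Mathlib

/-!
A set of natural numbers which converges in the profinite topology to the irrational number
`∑ i!` and whose gaps are short.
-/

set_option autoImplicit false

namespace Pool.Agent.V8H44.RC

open Nat

/-- `0! + 1! + ⋯ + (J - 1)!` -/
def fs (J : ℕ) : ℕ := ∑ i ∈ Finset.range J, i !

/-- the numbers `n` with `n ≡ 0! + ⋯ + (j - 1)!` modulo `j!` for all `j` with `(j!)² ≤ n` -/
def Sx : Set ℕ := {n | ∀ j, (j !) ^ 2 ≤ n → n ≡ fs j [MOD j !]}

theorem fs_succ (J : ℕ) : fs (J + 1) = fs J + J ! := Finset.sum_range_succ _ _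

theorem fs_mod {j J : ℕ} (h : j ≤ J) : fs J ≡ fs j [MOD j !] := by
  induction J, h using Nat.le_induction with
  | base => exact Nat.ModEq.refl _
  | succ J hJ ih =>
    rw [fs_succ]
    have h1 : J ! ≡ 0 [MOD j !] := (Nat.modEq_zero_iff_dvd).2 (Nat.factorial_dvd_factorial hJ)
    simpa using ih.add h1

theorem le_fs (J : ℕ) : J ≤ fs J := by
  induction J with
  | zero => exact Nat.zero_le _
  | succ J ih =>
    rw [fs_succ]
    have := Nat.factorial_pos J
    omega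

theorem fs_le (J : ℕ) : fs (J + 1) ≤ 2 * J ! := by
  induction J with
  | zero => simp [fs]
  | succ J ih =>
    rw [fs_succ]
    rcases Nat.eq_zero_or_pos J with rfl | hJ
    · simp [fs]
    · have h1 : (J + 1)! = (J + 1) * J ! := Nat.factorial_succ J
      have h2 : 2 * J ! ≤ (J + 1)! := by
        rw [h1]
        exact Nat.mul_le_mul_right _ (by omega)
      omega

theorem cls {W s : ℕ} (hW : 0 < W) (hs : s ∈ Sx) (h : (W !) ^ 2 ≤ s) : s ≡ fs W [MOD W] :=
  (hs W h).of_dvd (Nat.dvd_factorial hW le_rfl)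

theorem exists_shift {m : ℕ} (hm : 0 < m) (a b : ℕ) : ∃ d < m, a + d ≡ b [MOD m] := by
  refine ⟨(b + (m - a % m)) % m, Nat.mod_lt _ hm, ?_⟩
  have h1 : a + (b + (m - a % m)) % m ≡ a + (b + (m - a % m)) [MOD m] :=
    (Nat.mod_modEq _ _).add_left _
  refine h1.trans ?_
  have h2 := Nat.mod_lt a hm
  have h3 := Nat.div_add_mod a m
  have h4 : a + (b + (m - a % m)) = b + m * (a / m + 1) := by
    rw [Nat.mul_add, Nat.mul_one]
    omega
  rw [h4]
  have h5 : m * (a / m + 1) ≡ 0 [MOD m] := (Nat.modEq_zero_iff_dvd).2 (Dvd.intro _ rfl)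
  simpa using (Nat.ModEq.refl b).add h5

theorem gap {W : ℕ} (hW : 0 < W) (K : ℕ) : ∃ Y, ∀ y ≥ Y, ∀ s, s ≤ K * (y + 1) →
    s ≡ fs W [MOD W] → ∃ t, K * t ≤ y ∧ s + t * W ∈ Sx := by
  wlog hK : 0 < K with H
  · obtain ⟨Y, hY⟩ := H hW 1 Nat.one_pos
    refine ⟨Y, fun y hy s hs hm => ?_⟩
    obtain ⟨t, h1, h2⟩ := hY y hy s (by
      have : K = 0 := by omega
      subst this
      omega) hm
    exact ⟨t, by
      have : K = 0 := by omega
      subst this
      omega, h2⟩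
  refine ⟨2 * K ^ 2 * (K + 1) + (W !) ^ 2 + 1, fun y hy s hs hm => ?_⟩
  set z := (K + 1) * (y + 1) with hz
  have hyz : y + 1 ≤ z := Nat.le_mul_of_pos_left _ (by omega)
  set P : ℕ → Prop := fun j => (j !) ^ 2 ≤ z with hP
  have self_le : ∀ j, j ≤ (j !) ^ 2 := fun j => (Nat.self_le_factorial j).trans
    (Nat.le_self_pow (by norm_num) _)
  set τ := Nat.findGreatest P z with hτ
  have hWz : (W !) ^ 2 ≤ z := by omega
  have hWτ : W ≤ τ := Nat.le_findGreatest ((self_le W).trans hWz) hWz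
  have hPτ : (τ !) ^ 2 ≤ z := Nat.findGreatest_spec (P := P) ((self_le W).trans hWz) hWz
  have hτy : K * τ ! ≤ y := by
    have h1 : (K * τ !) ^ 2 ≤ y ^ 2 := by
      have e1 : (K * τ !) ^ 2 = K ^ 2 * (τ !) ^ 2 := by ring
      have e2 : K ^ 2 * (τ !) ^ 2 ≤ K ^ 2 * ((K + 1) * (y + 1)) := Nat.mul_le_mul_left _ hPτ
      have e3 : K ^ 2 * ((K + 1) * (y + 1)) ≤ (2 * K ^ 2 * (K + 1)) * y := by
        have : y + 1 ≤ 2 * y := by omega
        calc K ^ 2 * ((K + 1) * (y + 1)) = (K ^ 2 * (K + 1)) * (y + 1) := by ring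
          _ ≤ (K ^ 2 * (K + 1)) * (2 * y) := Nat.mul_le_mul_left _ this
          _ = _ := by ring
      have e4 : (2 * K ^ 2 * (K + 1)) * y ≤ y * y := Nat.mul_le_mul_right _ (by omega)
      rw [e1, sq y]
      omega
    exact (Nat.pow_le_pow_iff_left (by norm_num)).1 h1
  obtain ⟨d, hd, hmod⟩ := exists_shift (Nat.factorial_pos τ) s (fs τ)
  have hWd : W ∣ d := by
    have h1 : W ∣ τ ! := Nat.dvd_factorial hW hWτ
    have h2 : s + d ≡ fs τ [MOD W] := hmod.of_dvd h1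
    have h3 : fs τ ≡ fs W [MOD W] := (fs_mod hWτ).of_dvd (Nat.dvd_factorial hW le_rfl)
    have h4 : s + d ≡ s + 0 [MOD W] := by
      rw [Nat.add_zero]
      exact (h2.trans h3).trans hm.symm
    exact (Nat.modEq_zero_iff_dvd).1 (Nat.ModEq.add_left_cancel' s h4)
  obtain ⟨t, rfl⟩ := hWd
  refine ⟨t, ?_, ?_⟩
  · have h1 : t ≤ W * t := Nat.le_mul_of_pos_left _ hW
    have h2 : K * t ≤ K * τ ! := Nat.mul_le_mul_left _ (by omega)
    omega
  · rw [Nat.mul_comm t W]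
    intro j hj
    have h1 : τ ! ≤ K * τ ! := Nat.le_mul_of_pos_left _ hK
    have h2 : s + W * t ≤ z := by
      have : z = K * (y + 1) + (y + 1) := by rw [hz]; ring
      omega
    have h3 : (j !) ^ 2 ≤ z := hj.trans h2
    have h4 : j ≤ τ := Nat.le_findGreatest ((self_le j).trans h3) h3
    exact (hmod.of_dvd (Nat.factorial_dvd_factorial h4)).trans (fs_mod h4)

theorem unbounded (N : ℕ) : ∃ s ∈ Sx, N ≤ s := by
  obtain ⟨Y, hY⟩ := gap (W := 1) Nat.one_pos 1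
  obtain ⟨t, _, h2⟩ := hY (Y + N) (by omega) (Y + N) (by omega) (Nat.modEq_one)
  exact ⟨_, h2, by omega⟩

theorem irrat (β α : ℤ) (hβ : β ≠ 0) : ∃ Q : ℕ, 0 < Q ∧ ∃ N : ℕ, ∀ s ∈ Sx, N ≤ s →
    ¬ ((Q : ℤ) ∣ β * s - α) := by
  set J := 2 * β.natAbs + α.natAbs + 3 with hJ
  refine ⟨J !, Nat.factorial_pos J, (J !) ^ 2, fun s hs hN hdvd => ?_⟩
  have h1 : s ≡ fs J [MOD J !] := hs J hN
  have h2 : ((J ! : ℕ) : ℤ) ∣ (fs J : ℤ) - s := (Nat.modEq_iff_dvd).1 h1
  have h3 : ((J ! : ℕ) : ℤ) ∣ β * fs J - α := by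
    have h4 := (Dvd.dvd.mul_left h2 β).add hdvd
    have e : β * ((fs J : ℤ) - s) + (β * s - α) = β * fs J - α := by ring
    rwa [e] at h4
  obtain ⟨J', hJ'⟩ : ∃ J', J = J' + 1 := ⟨J - 1, by omega⟩
  have h5 : fs J ≤ 2 * J' ! := by rw [hJ']; exact fs_le J'
  have h6 : J ! = (J' + 1) * J' ! := by rw [hJ', Nat.factorial_succ]
  have h7 := Nat.factorial_pos J'
  have h8 : β.natAbs * fs J + α.natAbs < J ! := by
    rw [h6]
    have g1 : β.natAbs * fs J ≤ β.natAbs * (2 * J' !) := Nat.mul_le_mul_left _ h5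
    have g2 : α.natAbs ≤ α.natAbs * J' ! := Nat.le_mul_of_pos_right _ h7
    have g3 : β.natAbs * (2 * J' !) + α.natAbs * J' ! = (2 * β.natAbs + α.natAbs) * J' ! := by ring
    have g4 : (2 * β.natAbs + α.natAbs) * J' ! < (J' + 1) * J' ! :=
      Nat.mul_lt_mul_of_pos_right (by omega) h7
    omega
  have h9 : (β * fs J - α).natAbs < J ! := by
    have g1 := Int.natAbs_sub_le (β * fs J) α
    have g2 : (β * (fs J : ℤ)).natAbs = β.natAbs * fs J := by
      rw [Int.natAbs_mul, Int.natAbs_natCast]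
    omega
  have h10 : β * fs J - α = 0 := by
    by_contra hne
    have g1 := Int.natAbs_dvd_natAbs.2 h3
    rw [Int.natAbs_natCast] at g1
    have g2 := Nat.le_of_dvd (Int.natAbs_pos.2 hne) g1
    omega
  have h11 : β.natAbs * fs J = α.natAbs := by
    have g : β * (fs J : ℤ) = α := by omega
    rw [← g, Int.natAbs_mul, Int.natAbs_natCast]
  have h12 : 1 ≤ β.natAbs := Int.natAbs_pos.2 hβ
  have h13 := le_fs J
  have h14 : fs J ≤ β.natAbs * fs J := Nat.le_mul_of_pos_left _ h12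
  omega

end Pool.Agent.V8H44.RC
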